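import Mathlib

/-!
The arithmetic of the two weight functions.
-/

set_option autoImplicit false

namespace Pool.Agent.H408R4

variable (p : ℕ)

open Classical in
/-- the weight correction on matched edges -/
noncomputable def kap (B : ℕ → Prop) (a : ℕ) : ℕ :=
  if a % (p + 3) = 0 then (if (p + 3) * p ∣ a then 0 else 1)
  else if a % (p + 3) ≤ p + 1 then a % (p + 3) else (if B ((a + 1) / (p + 3)) then p + 2 else p + 1)

open Classical in
/-- the weight correction on cross edges -/
noncomputable def lam (L : Prop) (a : ℕ) : ℕ :=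
  if (p + 3) * p ∣ a then 0 else if L ∧ a % (p + 3) = p + 2 ∧ a < (p + 3) * p then 2 else 1

variable {p}

theorem exists_qs (a : ℕ) : ∃ q s, s < p + 3 ∧ a = (p + 3) * q + s :=
  ⟨a / (p + 3), a % (p + 3), Nat.mod_lt _ (by omega), (Nat.div_add_mod a (p + 3)).symm⟩

theorem mod_qs {q s : ℕ} (hs : s < p + 3) : ((p + 3) * q + s) % (p + 3) = s := by
  rw [Nat.mul_add_mod, Nat.mod_eq_of_lt hs]

variable {B : ℕ → Prop}

open Classical in
theorem kap_zero (q : ℕ) : kap p B ((p + 3) * q) = if p ∣ q then 0 else 1 := by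
  have h1 : (p + 3) * q % (p + 3) = 0 := Nat.mul_mod_right _ _
  have h2 : (p + 3) * p ∣ (p + 3) * q ↔ p ∣ q := Nat.mul_dvd_mul_iff_left (by omega)
  unfold kap
  rw [if_pos h1]
  by_cases h : p ∣ q
  · rw [if_pos h, if_pos (h2.2 h)]
  · rw [if_neg h, if_neg (fun h' => h (h2.1 h'))]

theorem kap_mid {q s : ℕ} (h1 : 1 ≤ s) (h2 : s ≤ p + 1) : kap p B ((p + 3) * q + s) = s := by
  unfold kap
  rw [mod_qs (by omega), if_neg (by omega), if_pos h2]

theorem kap_top_pos {q : ℕ} (h : B (q + 1)) : kap p B ((p + 3) * q + (p + 2)) = p + 2 := by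
  unfold kap
  rw [mod_qs (by omega), if_neg (by omega), if_neg (by omega)]
  have : ((p + 3) * q + (p + 2) + 1) / (p + 3) = q + 1 := by
    have : (p + 3) * q + (p + 2) + 1 = (p + 3) * (q + 1) := by ring
    rw [this, Nat.mul_div_cancel_left _ (by omega)]
  rw [this, if_pos h]

theorem kap_top_neg {q : ℕ} (h : ¬ B (q + 1)) : kap p B ((p + 3) * q + (p + 2)) = p + 1 := by
  unfold kap
  rw [mod_qs (by omega), if_neg (by omega), if_neg (by omega)]
  have : ((p + 3) * q + (p + 2) + 1) / (p + 3) = q + 1 := by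
    have : (p + 3) * q + (p + 2) + 1 = (p + 3) * (q + 1) := by ring
    rw [this, Nat.mul_div_cancel_left _ (by omega)]
  rw [this, if_neg h]

/-- bounds for a nonzero digit -/
theorem kap_digit {q s : ℕ} (h1 : 1 ≤ s) (h2 : s < p + 3) :
    kap p B ((p + 3) * q + s) ≤ s ∧ s ≤ kap p B ((p + 3) * q + s) + 1 ∧
      1 ≤ kap p B ((p + 3) * q + s) ∧ (s ≤ p + 1 → kap p B ((p + 3) * q + s) = s) := by
  by_cases h : s ≤ p + 1
  · rw [kap_mid h1 h]; exact ⟨le_rfl, by omega, h1, fun _ => rfl⟩
  · have : s = p + 2 := by omega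
    subst this
    by_cases hB : B (q + 1)
    · rw [kap_top_pos hB]; exact ⟨by omega, by omega, by omega, by omega⟩
    · rw [kap_top_neg hB]; exact ⟨by omega, by omega, by omega, by omega⟩

theorem kap_zero_le (q : ℕ) : kap p B ((p + 3) * q) ≤ 1 := by
  classical
  rw [kap_zero]; split_ifs <;> omega

theorem kap_le (a : ℕ) : kap p B a ≤ p + 2 := by
  obtain ⟨q, s, hs, rfl⟩ := exists_qs (p := p) a
  rcases Nat.eq_zero_or_pos s with rfl | h
  · have := kap_zero_le (p := p) (B := B) q
    rw [add_zero]; omega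
  · have := (kap_digit (p := p) (B := B) (q := q) h hs).1
    omega

theorem kap_succ (a : ℕ) : kap p B (a + 1) ≤ kap p B a + 1 := by
  obtain ⟨q, s, hs, rfl⟩ := exists_qs (p := p) a
  by_cases h : s = p + 2
  · subst h
    have : (p + 3) * q + (p + 2) + 1 = (p + 3) * (q + 1) := by ring
    rw [this]
    have := kap_zero_le (p := p) (B := B) (q + 1)
    omega
  · rw [add_assoc]
    have h1 := kap_digit (p := p) (B := B) (q := q) (s := s + 1) (by omega) (by omega)
    rcases Nat.eq_zero_or_pos s with rfl | h'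
    · omega
    · have h2 := kap_digit (p := p) (B := B) (q := q) (s := s) h' hs
      have := h2.2.2.2 (by omega)
      omega

theorem kap_mono_diff {a a' : ℕ} (h : a ≤ a') : kap p B a' + a ≤ kap p B a + a' := by
  induction a', h using Nat.le_induction with
  | base => omega
  | succ a' h ih =>
    have := kap_succ (p := p) (B := B) a'
    omega

/-- shifting down by multiples of the period -/
theorem B_down (hB : ∀ s, 1 ≤ s → B (s + p) → B s) (s : ℕ) (hs : 1 ≤ s) : ∀ k, B (s + p * k) → B s := by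
  intro k
  induction k with
  | zero => simp
  | succ k ih =>
    intro h
    apply ih
    apply hB _ (by omega)
    have : s + p * k + p = s + p * (k + 1) := by ring
    rwa [this]

theorem kap_shift (hB : ∀ s, 1 ≤ s → B (s + p) → B s) (a k : ℕ) :
    kap p B (a + (p + 3) * (p * k)) ≤ kap p B a := by
  classical
  obtain ⟨q, s, hs, rfl⟩ := exists_qs (p := p) a
  have e : (p + 3) * q + s + (p + 3) * (p * k) = (p + 3) * (q + p * k) + s := by ring
  rw [e]
  rcases Nat.eq_zero_or_pos s with rfl | h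
  · rw [add_zero, add_zero, kap_zero, kap_zero]
    have : p ∣ q + p * k ↔ p ∣ q := (Nat.dvd_add_iff_left (Dvd.intro k rfl)).symm
    simp only [this, le_refl]
  · by_cases h2 : s ≤ p + 1
    · rw [kap_mid h h2, kap_mid h h2]
    · have : s = p + 2 := by omega
      subst this
      by_cases hb : B (q + 1)
      · rw [kap_top_pos hb]; exact kap_le _
      · rw [kap_top_neg hb, kap_top_neg]
        intro h3
        apply hb
        apply B_down hB _ (by omega) k
        have : q + p * k + 1 = q + 1 + p * k := by ring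
        rwa [this] at h3

theorem kap_shift_eq (hB : ∀ s, p < s → (B (s + p) ↔ B s)) (a k : ℕ) (ha : (p + 3) * p ≤ a) :
    kap p B (a + (p + 3) * (p * k)) = kap p B a := by
  classical
  obtain ⟨q, s, hs, rfl⟩ := exists_qs (p := p) a
  have e : (p + 3) * q + s + (p + 3) * (p * k) = (p + 3) * (q + p * k) + s := by ring
  have hq : p ≤ q := by
    by_contra hcon
    have : (p + 3) * q + (p + 3) ≤ (p + 3) * p := by
      calc (p + 3) * q + (p + 3) = (p + 3) * (q + 1) := by ring
        _ ≤ (p + 3) * p := Nat.mul_le_mul_left _ (by omega)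
    omega
  rw [e]
  rcases Nat.eq_zero_or_pos s with rfl | h
  · rw [add_zero, add_zero, kap_zero, kap_zero]
    have : p ∣ q + p * k ↔ p ∣ q := (Nat.dvd_add_iff_left (Dvd.intro k rfl)).symm
    simp only [this]
  · by_cases h2 : s ≤ p + 1
    · rw [kap_mid h h2, kap_mid h h2]
    · have : s = p + 2 := by omega
      subst this
      have h3 : ∀ k, B (q + 1 + p * k) ↔ B (q + 1) := by
        intro k
        induction k with
        | zero => simp
        | succ k ih =>
          have : q + 1 + p * (k + 1) = q + 1 + p * k + p := by ring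
          rw [this, hB _ (by omega), ih]
      have h4 : q + p * k + 1 = q + 1 + p * k := by ring
      by_cases hb : B (q + 1)
      · rw [kap_top_pos hb, kap_top_pos]
        rw [h4, h3]; exact hb
      · rw [kap_top_neg hb, kap_top_neg]
        rw [h4, h3]; exact hb

theorem kap_sub (hB : ∀ s, 1 ≤ s → B (s + p) → B s) (a b : ℕ) :
    kap p B (a + b) ≤ kap p B a + kap p B b := by
  classical
  -- the case where one digit is zero
  have key : ∀ q b, kap p B ((p + 3) * q + b) ≤ kap p B ((p + 3) * q) + kap p B b := by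
    intro q b
    by_cases hq : p ∣ q
    · obtain ⟨k, rfl⟩ := hq
      have h1 := kap_shift hB b k
      have h2 : (p + 3) * (p * k) + b = b + (p + 3) * (p * k) := by ring
      rw [h2]; omega
    · have h1 : kap p B ((p + 3) * q) = 1 := by rw [kap_zero, if_neg hq]
      obtain ⟨q', s, hs, rfl⟩ := exists_qs (p := p) b
      have e : (p + 3) * q + ((p + 3) * q' + s) = (p + 3) * (q + q') + s := by ring
      rw [e, h1]
      rcases Nat.eq_zero_or_pos s with rfl | h
      · have := kap_zero_le (p := p) (B := B) (q + q')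
        rw [add_zero]; omega
      · have h2 := kap_digit (p := p) (B := B) (q := q + q') h hs
        have h3 := kap_digit (p := p) (B := B) (q := q') h hs
        omega
  obtain ⟨q, s, hs, rfl⟩ := exists_qs (p := p) a
  obtain ⟨q', s', hs', rfl⟩ := exists_qs (p := p) b
  rcases Nat.eq_zero_or_pos s with rfl | h
  · rw [add_zero]; exact key _ _
  rcases Nat.eq_zero_or_pos s' with rfl | h'
  · rw [add_zero, add_comm ((p + 3) * q + s), add_comm (kap p B ((p + 3) * q + s))]
    exact key _ _
  have h1 := kap_digit (p := p) (B := B) (q := q) h hs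
  have h2 := kap_digit (p := p) (B := B) (q := q') h' hs'
  by_cases hc : s + s' < p + 3
  · have e : (p + 3) * q + s + ((p + 3) * q' + s') = (p + 3) * (q + q') + (s + s') := by ring
    rw [e]
    have h3 := kap_digit (p := p) (B := B) (q := q + q') (s := s + s') (by omega) hc
    have h4 := h1.2.2.2 (by omega)
    have h5 := h2.2.2.2 (by omega)
    omega
  · obtain ⟨s'', hs''⟩ : ∃ s'', s + s' = p + 3 + s'' := ⟨s + s' - (p + 3), by omega⟩
    have e : (p + 3) * q + s + ((p + 3) * q' + s') = (p + 3) * (q + q' + 1) + s'' := by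
      calc (p + 3) * q + s + ((p + 3) * q' + s') = (p + 3) * (q + q') + (s + s') := by ring
        _ = _ := by rw [hs'']; ring
    rw [e]
    rcases Nat.eq_zero_or_pos s'' with rfl | h3
    · have := kap_zero_le (p := p) (B := B) (q + q' + 1)
      rw [add_zero]; omega
    · have h4 := kap_digit (p := p) (B := B) (q := q + q' + 1) (s := s'') h3 (by omega)
      omega

/-- values above the critical exponent -/
theorem kap_above (t x : ℕ) (hx : 1 ≤ x) : kap p B ((p + 3) * t + x) ≤ x := by
  obtain ⟨q, s, hs, rfl⟩ := exists_qs (p := p) x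
  have e : (p + 3) * t + ((p + 3) * q + s) = (p + 3) * (t + q) + s := by ring
  rw [e]
  rcases Nat.eq_zero_or_pos s with rfl | h
  · have := kap_zero_le (p := p) (B := B) (t + q)
    rw [add_zero] at *
    omega
  · have := (kap_digit (p := p) (B := B) (q := t + q) h hs).1
    omega

theorem kap_below_pos {t a : ℕ} (ha : a + 1 = (p + 3) * t) (hB : B t) : kap p B a = p + 2 := by
  obtain ⟨t, rfl⟩ : ∃ t', t = t' + 1 := ⟨t - 1, by
    rcases Nat.eq_zero_or_pos t with rfl | h
    · omega
    · omega⟩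
  have : a = (p + 3) * t + (p + 2) := by
    have : (p + 3) * (t + 1) = (p + 3) * t + (p + 3) := by ring
    omega
  rw [this]; exact kap_top_pos hB

theorem kap_below_neg {t a : ℕ} (ha : a + 1 = (p + 3) * t) (hB : ¬ B t) : kap p B a = p + 1 := by
  obtain ⟨t, rfl⟩ : ∃ t', t = t' + 1 := ⟨t - 1, by
    rcases Nat.eq_zero_or_pos t with rfl | h
    · omega
    · omega⟩
  have : a = (p + 3) * t + (p + 2) := by
    have : (p + 3) * (t + 1) = (p + 3) * t + (p + 3) := by ring
    omega
  rw [this]; exact kap_top_neg hB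

/-! ### the second function -/

variable {L : Prop}

theorem lam_le (a : ℕ) : lam p L a ≤ 2 := by
  unfold lam; split_ifs <;> omega

theorem lam_mono {L' : Prop} (h : L → L') (a : ℕ) : lam p L a ≤ lam p L' a := by
  unfold lam
  split_ifs <;> first | omega | tauto

theorem lam_dvd {a : ℕ} (h : (p + 3) * p ∣ a) : lam p L a = 0 := by
  unfold lam; rw [if_pos h]

theorem lam_pos {a : ℕ} (h : ¬ (p + 3) * p ∣ a) : 1 ≤ lam p L a := by
  unfold lam; rw [if_neg h]; split_ifs <;> omega

theorem lam_big_le {a : ℕ} (h : (p + 3) * p ≤ a) : lam p L a ≤ 1 := by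
  unfold lam; split_ifs <;> omega

theorem lam_shift_eq (a k : ℕ) (ha : (p + 3) * p ≤ a) :
    lam p L (a + (p + 3) * p * k) = lam p L a := by
  have h1 : (p + 3) * p ∣ a + (p + 3) * p * k ↔ (p + 3) * p ∣ a :=
    (Nat.dvd_add_iff_left (Dvd.intro k rfl)).symm
  by_cases h : (p + 3) * p ∣ a
  · rw [lam_dvd h, lam_dvd (h1.2 h)]
  · have h2 := lam_pos (p := p) (L := L) h
    have h3 := lam_pos (p := p) (L := L) (fun h' => h (h1.1 h'))
    have h4 := lam_big_le (p := p) (L := L) ha
    have h5 := lam_big_le (p := p) (L := L) (a := a + (p + 3) * p * k) (by omega)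
    omega

theorem lam_sub (a b : ℕ) : lam p L (a + b) ≤ lam p L a + lam p L b := by
  have key : ∀ a b, (p + 3) * p ∣ a → lam p L (a + b) ≤ lam p L b := by
    intro a b ha
    have h1 : (p + 3) * p ∣ a + b ↔ (p + 3) * p ∣ b := (Nat.dvd_add_iff_right ha).symm
    by_cases h : (p + 3) * p ∣ b
    · rw [lam_dvd (h1.2 h)]; omega
    · rcases Nat.eq_zero_or_pos a with rfl | h2
      · rw [zero_add]
      · have h3 := Nat.le_of_dvd h2 ha
        have h4 := lam_big_le (p := p) (L := L) (a := a + b) (by omega)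
        have h5 := lam_pos (p := p) (L := L) h
        omega
  by_cases ha : (p + 3) * p ∣ a
  · have := key a b ha; omega
  by_cases hb : (p + 3) * p ∣ b
  · have := key b a hb
    rw [add_comm a b]; omega
  have h1 := lam_pos (p := p) (L := L) ha
  have h2 := lam_pos (p := p) (L := L) hb
  have h3 := lam_le (p := p) (L := L) (a + b)
  omega

theorem dvd_crit {t : ℕ} : (p + 3) * p ∣ (p + 3) * t ↔ p ∣ t :=
  Nat.mul_dvd_mul_iff_left (by omega)

open Classical in
theorem lam_crit (t : ℕ) : lam p L ((p + 3) * t) = if p ∣ t then 0 else 1 := by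
  unfold lam
  have h1 : (p + 3) * t % (p + 3) = 0 := Nat.mul_mod_right _ _
  by_cases h : p ∣ t
  · rw [if_pos h, if_pos (dvd_crit.2 h)]
  · rw [if_neg h, if_neg (fun h' => h (dvd_crit.1 h')), if_neg (by rw [h1]; omega)]

theorem lam_below_ge {t a : ℕ} (ha : a + 1 = (p + 3) * t) : 1 ≤ lam p L a := by
  apply lam_pos
  intro h
  have h1 : (p + 3) ∣ a := Dvd.dvd.trans (Dvd.intro _ rfl) h
  have h2 : (p + 3) ∣ a + 1 := ha ▸ Dvd.intro _ rfl
  have h3 := (Nat.dvd_add_right h1).1 h2
  have := Nat.le_of_dvd (by omega) h3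
  omega

theorem lam_below_two {t a : ℕ} (ha : a + 1 = (p + 3) * t) (ht : t ≤ p) (hL : L) :
    lam p L a = 2 := by
  have h1 := lam_below_ge (p := p) (L := L) ha
  have h2 : ¬ (p + 3) * p ∣ a := fun h => by rw [lam_dvd h] at h1; omega
  unfold lam
  rw [if_neg h2, if_pos]
  refine ⟨hL, ?_, ?_⟩
  · obtain ⟨t, rfl⟩ : ∃ t', t = t' + 1 := ⟨t - 1, by
      rcases Nat.eq_zero_or_pos t with rfl | h
      · omega
      · omega⟩
    have : a = (p + 3) * t + (p + 2) := by
      have : (p + 3) * (t + 1) = (p + 3) * t + (p + 3) := by ring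
      omega
    rw [this]; exact mod_qs (by omega)
  · have := Nat.mul_le_mul_left (p + 3) ht
    omega

theorem lam_below_one {t a : ℕ} (ha : a + 1 = (p + 3) * t) (h : p < t ∨ ¬ L) :
    lam p L a = 1 := by
  have h1 := lam_below_ge (p := p) (L := L) ha
  have h2 : ¬ (p + 3) * p ∣ a := fun h => by rw [lam_dvd h] at h1; omega
  unfold lam
  rw [if_neg h2, if_neg]
  rintro ⟨h3, _, h4⟩
  rcases h with h | h
  · have : (p + 3) * (p + 1) ≤ (p + 3) * t := Nat.mul_le_mul_left _ h
    have e : (p + 3) * (p + 1) = (p + 3) * p + (p + 3) := by ring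
    omega
  · exact h h3

/-! ### the three types of conditions -/

/-- matched edges -/
def TM (p : ℕ) (B : ℕ → Prop) (t a b : ℕ) : Prop :=
  (p + 3) * p * (2 * p + 1) * t + kap p B a ≤ a + b

/-- cross edges -/
def TC (p : ℕ) (L : Prop) (t a b : ℕ) : Prop :=
  (p + 3) * p * (2 * p + 2) * t + lam p L a ≤ (p + 1) * a + b

/-- edges between the second vertices -/
def TV (c t a b : ℕ) : Prop := c * t ≤ a + b

theorem TM_up {t a b a' b' : ℕ} (h : TM p B t a b) (ha : a ≤ a') (hb : b ≤ b') : TM p B t a' b' := by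
  have := kap_mono_diff (p := p) (B := B) ha
  unfold TM at *
  omega

theorem TC_up {t a b a' b' : ℕ} (hp : 2 ≤ p) (h : TC p L t a b) (ha : a ≤ a') (hb : b ≤ b') :
    TC p L t a' b' := by
  unfold TC at *
  rcases ha.eq_or_lt with rfl | ha
  · omega
  · have h1 := lam_le (p := p) (L := L) a'
    have h2 : (p + 1) * a + (p + 1) ≤ (p + 1) * a' := by
      calc (p + 1) * a + (p + 1) = (p + 1) * (a + 1) := by ring
        _ ≤ _ := Nat.mul_le_mul_left _ ha
    omega

theorem TV_up {c t a b a' b' : ℕ} (h : TV c t a b) (ha : a ≤ a') (hb : b ≤ b') :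
    TV c t a' b' := by
  unfold TV at *
  omega

theorem TM_add (hB : ∀ s, 1 ≤ s → B (s + p) → B s) {t a b a' b' : ℕ} (h : TM p B t a b)
    (h' : TM p B 1 a' b') : TM p B (t + 1) (a + a') (b + b') := by
  unfold TM at *
  have h1 := kap_sub hB a a'
  have h2 : (p + 3) * p * (2 * p + 1) * (t + 1) =
    (p + 3) * p * (2 * p + 1) * t + (p + 3) * p * (2 * p + 1) * 1 := by ring
  omega

theorem TC_add {t a b a' b' : ℕ} (h : TC p L t a b)
    (h' : TC p L 1 a' b') : TC p L (t + 1) (a + a') (b + b') := by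
  unfold TC at *
  have h1 := lam_sub (p := p) (L := L) a a'
  have h2 : (p + 3) * p * (2 * p + 2) * (t + 1) =
    (p + 3) * p * (2 * p + 2) * t + (p + 3) * p * (2 * p + 2) * 1 := by ring
  have h3 : (p + 1) * (a + a') = (p + 1) * a + (p + 1) * a' := by ring
  omega

theorem TV_add {c t a b a' b' : ℕ} (h : TV c t a b)
    (h' : TV c 1 a' b') : TV c (t + 1) (a + a') (b + b') := by
  unfold TV at *
  rw [mul_add]
  omega

theorem TM_dec (hp : 2 ≤ p) (hB : ∀ s, p < s → (B (s + p) ↔ B s)) {t a b : ℕ} (ht : 1 ≤ t)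
    (h : TM p B (t + 1) a b) : ∃ a0 b0, a0 ≤ a ∧ b0 ≤ b ∧ TM p B 1 a0 b0 ∧
      TM p B t (a - a0) (b - b0) := by
  classical
  unfold TM at *
  set D := (p + 3) * p with hD
  set W := D * (2 * p + 1) with hW
  have hWt : W * (t + 1) = W * t + W := by ring
  have hWt1 : W ≤ W * t := Nat.le_mul_of_pos_right _ ht
  have hk0 : kap p B 0 = 0 := by
    have := kap_zero (p := p) (B := B) 0
    rw [mul_zero] at this
    rw [this, if_pos (dvd_zero _)]
  have hDpos : 0 < D := by positivity
  by_cases hb : W ≤ b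
  · refine ⟨0, W, Nat.zero_le _, hb, by rw [hk0]; omega, ?_⟩
    rw [Nat.sub_zero]; omega
  · have h1 := Nat.div_add_mod b D
    have h2 := Nat.mod_lt b hDpos
    have h3 : b / D ≤ 2 * p + 1 := by
      have : b / D < 2 * p + 1 := by
        rw [Nat.div_lt_iff_lt_mul hDpos]
        rw [mul_comm] at hW
        omega
      omega
    obtain ⟨k, hk⟩ : ∃ k, 2 * p + 1 = b / D + k := ⟨2 * p + 1 - b / D, by omega⟩
    have hWk : W = D * (b / D) + D * k := by rw [hW, hk]; ring
    have hDW : D + D ≤ W := by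
      have : D * 2 ≤ D * (2 * p + 1) := Nat.mul_le_mul_left _ (by omega)
      omega
    have ha0 : D * k ≤ a := by omega
    have hrest : D ≤ a - D * k := by omega
    have hDk : D * k = (p + 3) * (p * k) := by rw [hD]; ring
    have hkk : kap p B (D * k) = 0 := by
      rw [hDk, kap_zero, if_pos (Dvd.intro _ rfl)]
    refine ⟨D * k, D * (b / D), ha0, by omega, by rw [hkk]; omega, ?_⟩
    have h4 := kap_shift_eq hB (a - D * k) k hrest
    rw [← hDk, Nat.sub_add_cancel ha0] at h4
    rw [← h4]
    omega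

theorem TC_dec (hp : 2 ≤ p) {t a b : ℕ} (ht : 1 ≤ t)
    (h : TC p L (t + 1) a b) : ∃ a0 b0, a0 ≤ a ∧ b0 ≤ b ∧ TC p L 1 a0 b0 ∧
      TC p L t (a - a0) (b - b0) := by
  unfold TC at *
  set D := (p + 3) * p with hD
  set W := D * (2 * p + 2) with hW
  have hWt : W * (t + 1) = W * t + W := by ring
  have hWt1 : W ≤ W * t := Nat.le_mul_of_pos_right _ ht
  have hW2 : W = (p + 1) * D + (p + 1) * D := by rw [hW]; ring
  have hDpos : 0 < D := by positivity
  have hl0 : lam p L 0 = 0 := lam_dvd (dvd_zero _)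
  by_cases hb : W ≤ b
  · refine ⟨0, W, Nat.zero_le _, hb, by rw [hl0]; omega, ?_⟩
    rw [Nat.sub_zero]; omega
  · -- the size of `a`
    have ha1 : D + D < a := by
      by_contra hcon
      have : (p + 1) * a ≤ (p + 1) * (D + D) := Nat.mul_le_mul_left _ (by omega)
      rw [mul_add] at this
      omega
    have main : ∀ k b0, (p + 1) * (D * k) + b0 = W → D * k ≤ a → b0 ≤ b → b - b0 < (p + 1) * D →
        TC p L 1 (D * k) b0 ∧ TC p L t (a - D * k) (b - b0) := by
      intro k b0 h1 h2 h3 h4
      have h5 : lam p L (D * k) = 0 := lam_dvd (Dvd.intro _ rfl)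
      refine ⟨?_, ?_⟩
      · unfold TC
        rw [h5, ← hD, ← hW, ← h1]; omega
      · unfold TC
        rw [← hD, ← hW]
        obtain ⟨a', ha'⟩ : ∃ a', a = a' + D * k := ⟨a - D * k, by omega⟩
        have h6 : (p + 1) * a = (p + 1) * a' + (p + 1) * (D * k) := by rw [ha']; ring
        have h7 : a - D * k = a' := by omega
        rw [h7]
        have h8 : D ≤ a' := by
          by_contra hcon
          have : (p + 1) * a' ≤ (p + 1) * D := Nat.mul_le_mul_left _ (by omega)
          omega
        have h9 := lam_shift_eq (L := L) a' k h8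
        rw [← hD, ← ha'] at h9
        rw [← h9]
        omega
    by_cases hb2 : (p + 1) * D ≤ b
    · obtain ⟨h1, h2⟩ := main 1 ((p + 1) * D) (by rw [mul_one, hW2]) (by omega) hb2 (by omega)
      exact ⟨D * 1, (p + 1) * D, by omega, hb2, h1, h2⟩
    · obtain ⟨h1, h2⟩ := main 2 0 (by rw [hW2]; ring) (by omega) (by omega) (by omega)
      exact ⟨D * 2, 0, by omega, by omega, h1, h2⟩

theorem TV_dec {c t a b : ℕ} (h : TV c (t + 1) a b) : ∃ a0 b0, a0 ≤ a ∧ b0 ≤ b ∧ TV c 1 a0 b0 ∧
      TV c t (a - a0) (b - b0) := by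
  unfold TV at *
  rw [mul_add] at h
  refine ⟨min a c, c - min a c, by omega, by omega, by omega, by omega⟩

end Pool.Agent.H408R4
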