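import Mathlib
import Pool.Agent.H408R3.PdTools
import Pool.Agent.H408R3.EvPd

/-!
Projective dimension of monomial quotients through squarefree patterns.
-/

set_option autoImplicit false

namespace Pool.Agent.H408R4

open CategoryTheory Abelian Limits MvPolynomial
open Pool.Agent.Helper698.Dstab
open Pool.Agent.Helper698.Symb
open Pool.Agent.H408R3.PDF

universe u

section general

variable {R : Type u} [CommRing R]
variable {A B C : Type u} [AddCommGroup A] [Module R A]
  [AddCommGroup B] [Module R B] [AddCommGroup C] [Module R C]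

theorem PD_of_sub (P : Submodule R A) {t : ℕ} (h1 : PD (R := R) P t)
    (h2 : PD (R := R) (A ⧸ P) t) : PD (R := R) A t :=
  PD_mid P.subtype P.mkQ P.injective_subtype P.mkQ_surjective (LinearMap.exact_subtype_mkQ P) h1 h2

theorem PD_sub (P : Submodule R A) {t : ℕ} (h1 : PD (R := R) A t)
    (h2 : PD (R := R) (A ⧸ P) (t + 1)) : PD (R := R) P t :=
  PD_left P.subtype P.mkQ P.injective_subtype P.mkQ_surjective (LinearMap.exact_subtype_mkQ P) h1 h2

theorem PD_quot (I J : Ideal R) (hIJ : I ≤ J) {t : ℕ}
    (h1 : PD (R := R) (Submodule.map (Submodule.mkQ I) J) t) (h2 : PD (R := R) (R ⧸ J) t) :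
    PD (R := R) (R ⧸ I) t := by
  refine PD_of_sub (Submodule.map (Submodule.mkQ I) J) h1 ?_
  exact PD.equiv (Submodule.quotientQuotientEquivQuotient I J hIJ).symm h2

theorem PD_map (I J : Ideal R) (hIJ : I ≤ J) {t : ℕ}
    (h1 : PD (R := R) (R ⧸ I) t) (h2 : PD (R := R) (R ⧸ J) (t + 1)) :
    PD (R := R) (Submodule.map (Submodule.mkQ I) J) t := by
  refine PD_sub (Submodule.map (Submodule.mkQ I) J) h1 ?_
  exact PD.equiv (Submodule.quotientQuotientEquivQuotient I J hIJ).symm h2

theorem PD_shift (I J I' J' : Ideal R) (a : R)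
    (h1 : ∀ f ∈ J, a * f ∈ J') (h2 : ∀ f ∈ I, a * f ∈ I')
    (h3 : ∀ f ∈ J, a * f ∈ I' → f ∈ I) (h4 : ∀ g ∈ J', ∃ f ∈ J, g - a * f ∈ I') {t : ℕ}
    (h : PD (R := R) (Submodule.map (Submodule.mkQ I) J) t) :
    PD (R := R) (Submodule.map (Submodule.mkQ I') J') t := by
  let μ : R →ₗ[R] R := LinearMap.lsmul R R a
  let φ : (R ⧸ I) →ₗ[R] (R ⧸ I') := Submodule.mapQ I I' μ (fun f hf => h2 f hf)
  have hφ : ∀ f : R, φ (Submodule.Quotient.mk f) = Submodule.Quotient.mk (a * f) := fun f => rfl
  let ψ : Submodule.map (Submodule.mkQ I) J →ₗ[R] Submodule.map (Submodule.mkQ I') J' :=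
    φ.restrict (by
      rintro _ ⟨f, hf, rfl⟩
      exact ⟨a * f, h1 f hf, rfl⟩)
  have hinj : Function.Injective ψ := by
    rw [← LinearMap.ker_eq_bot, LinearMap.ker_eq_bot']
    rintro ⟨_, ⟨f, hf, rfl⟩⟩ h0
    have h5 : φ (Submodule.Quotient.mk f) = 0 := congrArg Subtype.val h0
    rw [hφ, Submodule.Quotient.mk_eq_zero] at h5
    apply Subtype.ext
    exact (Submodule.Quotient.mk_eq_zero I).2 (h3 f hf h5)
  have hsurj : Function.Surjective ψ := by
    rintro ⟨_, ⟨g, hg, rfl⟩⟩
    obtain ⟨f, hf, hfg⟩ := h4 g hg
    refine ⟨⟨Submodule.Quotient.mk f, ⟨f, hf, rfl⟩⟩, ?_⟩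
    apply Subtype.ext
    show φ (Submodule.Quotient.mk f) = Submodule.Quotient.mk g
    rw [hφ, eq_comm, Submodule.Quotient.eq]
    exact hfg
  exact PD.equiv (LinearEquiv.ofBijective ψ ⟨hinj, hsurj⟩) h

theorem PD_retract (s : A →ₗ[R] B) (p : B →ₗ[R] A) (h : p.comp s = LinearMap.id) {t : ℕ}
    (hB : PD (R := R) B t) : PD (R := R) A t := by
  let ρ : Retract (ModuleCat.of R A) (ModuleCat.of R B) :=
    { i := ModuleCat.ofHom s
      r := ModuleCat.ofHom p
      retract := by
        rw [← ModuleCat.ofHom_comp, h]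
        rfl }
  exact @Retract.hasProjectiveDimensionLT _ _ _ _ _ ρ t hB

end general

variable {r : ℕ} {K : Type u} [Field K]

/-- abbreviation: the projective dimension of a monomial quotient -/
def QD (K : Type u) [Field K] (E : Set (Fin r →₀ ℕ)) (t : ℕ) : Prop :=
  PD (R := MvPolynomial (Fin r) K) (MvPolynomial (Fin r) K ⧸ MI K E) t

theorem QD.mono {E : Set (Fin r →₀ ℕ)} {t t' : ℕ} (h : QD K E t) (ht : t ≤ t') : QD K E t' :=
  PD.mono h ht

theorem mem_supp_mul (a : Fin r →₀ ℕ) (f : MvPolynomial (Fin r) K) (β : Fin r →₀ ℕ) :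
    β ∈ (monomial a (1 : K) * f).support ↔ ∃ α ∈ f.support, β = a + α := by
  classical
  rw [mem_support_iff, coeff_monomial_mul']
  constructor
  · intro hne
    split_ifs at hne with hle
    · rw [one_mul] at hne
      exact ⟨β - a, mem_support_iff.2 hne, (add_tsub_cancel_of_le hle).symm⟩
    · exact absurd rfl hne
  · rintro ⟨α, hα, rfl⟩
    rw [if_pos (by simp), add_tsub_cancel_left, one_mul]
    exact mem_support_iff.1 hα

theorem mul_mem_MI_iff {E : Set (Fin r →₀ ℕ)} (hE : IsUpperSet E) (a : Fin r →₀ ℕ)
    (f : MvPolynomial (Fin r) K) :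
    monomial a (1 : K) * f ∈ MI K E ↔ ∀ α ∈ f.support, a + α ∈ E := by
  rw [mem_MI hE]
  constructor
  · intro h α hα
    exact h _ ((mem_supp_mul a f _).2 ⟨α, hα, rfl⟩)
  · intro h β hβ
    obtain ⟨α, hα, rfl⟩ := (mem_supp_mul a f β).1 hβ
    exact h α hα

/-- the block lemma at the level of exponents -/
theorem PD_block {A B A' B' : Set (Fin r →₀ ℕ)} (hA : IsUpperSet A) (hB : IsUpperSet B)
    (hA' : IsUpperSet A') (hB' : IsUpperSet B') (a : Fin r →₀ ℕ)
    (h1 : ∀ α ∈ B, a + α ∈ B') (h2 : ∀ α ∈ A, a + α ∈ A')
    (h3 : ∀ α ∈ B, a + α ∈ A' → α ∈ A) (h4 : ∀ β ∈ B', β ∉ A' → ∃ α ∈ B, β = a + α) {t : ℕ}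
    (h : PD (R := MvPolynomial (Fin r) K) (Submodule.map (Submodule.mkQ (MI K A)) (MI K B)) t) :
    PD (R := MvPolynomial (Fin r) K)
      (Submodule.map (Submodule.mkQ (MI K A')) (MI K B')) t := by
  classical
  refine PD_shift (MI K A) (MI K B) (MI K A') (MI K B') (monomial a 1) ?_ ?_ ?_ ?_ h
  · intro f hf
    rw [mem_MI hB] at hf
    rw [mul_mem_MI_iff hB']
    exact fun α hα => h1 α (hf α hα)
  · intro f hf
    rw [mem_MI hA] at hf
    rw [mul_mem_MI_iff hA']
    exact fun α hα => h2 α (hf α hα)
  · intro f hf hf'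
    rw [mem_MI hB] at hf
    rw [mul_mem_MI_iff hA'] at hf'
    rw [mem_MI hA]
    exact fun α hα => h3 α (hf α hα) (hf' α hα)
  · intro g hg
    rw [mem_MI hB'] at hg
    -- take the part of `g` outside `A'`
    refine ⟨∑ β ∈ g.support.filter (fun β => β ∉ A'), monomial (β - a) (coeff β g), ?_, ?_⟩
    · apply Ideal.sum_mem
      intro β hβ
      obtain ⟨hβ1, hβ2⟩ := Finset.mem_filter.1 hβ
      obtain ⟨α, hα, rfl⟩ := h4 β (hg β hβ1) hβ2
      rw [add_tsub_cancel_left]
      exact monomial_mem_MI hα _
    · have h5 : monomial a (1 : K) * ∑ β ∈ g.support.filter (fun β => β ∉ A'),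
          monomial (β - a) (coeff β g) =
          ∑ β ∈ g.support.filter (fun β => β ∉ A'), monomial β (coeff β g) := by
        rw [Finset.mul_sum]
        apply Finset.sum_congr rfl
        intro β hβ
        obtain ⟨hβ1, hβ2⟩ := Finset.mem_filter.1 hβ
        obtain ⟨α, hα, rfl⟩ := h4 β (hg β hβ1) hβ2
        rw [monomial_mul, one_mul, add_tsub_cancel_left]
      rw [h5]
      have h6 : g = ∑ β ∈ g.support.filter (fun β => β ∈ A'), monomial β (coeff β g) +
          ∑ β ∈ g.support.filter (fun β => β ∉ A'), monomial β (coeff β g) := by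
        rw [Finset.sum_filter_add_sum_filter_not]
        exact g.as_sum
      have h7 : g - ∑ β ∈ g.support.filter (fun β => β ∉ A'), monomial β (coeff β g) =
          ∑ β ∈ g.support.filter (fun β => β ∈ A'), monomial β (coeff β g) := by
        conv_lhs => rw [h6]
        rw [← h6]
        rw [sub_eq_iff_eq_add]
        exact h6
      rw [h7]
      apply Ideal.sum_mem
      intro β hβ
      exact monomial_mem_MI (Finset.mem_filter.1 hβ).2 _

/-- splitting off a monomial -/
theorem QD_split {E E1 E2 : Set (Fin r →₀ ℕ)} (hE : IsUpperSet E) (hE1 : IsUpperSet E1)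
    (a : Fin r →₀ ℕ) (hc1 : ∀ γ, γ ∈ E1 ↔ a + γ ∈ E) (hc2 : ∀ γ, γ ∈ E2 ↔ γ ∈ E ∨ a ≤ γ) {t : ℕ}
    (h1 : QD K E1 t) (h2 : QD K E2 t) : QD K E t := by
  refine PD_colon (MI K E) (MI K E1) (monomial a 1) ?_ h1 ?_
  · intro f
    rw [mem_MI hE1, mul_mem_MI_iff hE]
    simp only [hc1]
  · have : MI K E ⊔ Ideal.span {monomial a (1 : K)} = MI K E2 := by
      apply le_antisymm
      · apply sup_le (MI_mono fun γ hγ => (hc2 γ).2 (Or.inl hγ))
        rw [Ideal.span_singleton_le_iff_mem]
        exact monomial_mem_MI ((hc2 a).2 (Or.inr le_rfl)) 1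
      · rw [MI, Ideal.span_le]
        rintro _ ⟨γ, hγ, rfl⟩
        rcases (hc2 γ).1 hγ with h | h
        · exact Ideal.mem_sup_left (monomial_mem_MI h 1)
        · apply Ideal.mem_sup_right
          have : (monomial γ (1 : K)) = monomial (γ - a) 1 * monomial a 1 := by
            rw [monomial_mul, one_mul, tsub_add_cancel_of_le h]
          show monomial γ (1 : K) ∈ _
          rw [this]
          exact Ideal.mul_mem_left _ _ (Ideal.mem_span_singleton_self _)
    rw [this]
    exact h2

/-- adding a regular variable -/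
theorem QD_reg {E E2 : Set (Fin r →₀ ℕ)} (hE : IsUpperSet E) (z : Fin r)
    (hz : ∀ γ, Finsupp.single z 1 + γ ∈ E → γ ∈ E) (hc2 : ∀ γ, γ ∈ E2 ↔ γ ∈ E ∨ γ z ≠ 0) {t : ℕ}
    (h : QD K E t) : QD K E2 (t + 1) := by
  have hle : ∀ γ : Fin r →₀ ℕ, Finsupp.single z 1 ≤ γ ↔ γ z ≠ 0 := by
    intro γ
    rw [Finsupp.single_le_iff]; omega
  obtain ⟨h1, h2, h3⟩ := quot_exact (MI K E) (X z) (by
    intro f hf
    rw [X, mul_mem_MI_iff hE] at hf
    rw [mem_MI hE]
    exact fun α hα => hz α (hf α hα))
  have h4 := PD_right _ _ h1 h2 h3 h (PD.mono h (Nat.le_succ t))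
  have : MI K E ⊔ Ideal.span {(X z : MvPolynomial (Fin r) K)} = MI K E2 := by
    apply le_antisymm
    · apply sup_le (MI_mono fun γ hγ => (hc2 γ).2 (Or.inl hγ))
      rw [Ideal.span_singleton_le_iff_mem]
      exact monomial_mem_MI ((hc2 _).2 (Or.inr (by simp))) 1
    · rw [MI, Ideal.span_le]
      rintro _ ⟨γ, hγ, rfl⟩
      rcases (hc2 γ).1 hγ with h | h
      · exact Ideal.mem_sup_left (monomial_mem_MI h 1)
      · apply Ideal.mem_sup_right
        have : (monomial γ (1 : K)) = monomial (γ - Finsupp.single z 1) 1 * X z := by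
          rw [X, monomial_mul, one_mul, tsub_add_cancel_of_le ((hle γ).2 h)]
        show monomial γ (1 : K) ∈ _
        rw [this]
        exact Ideal.mul_mem_left _ _ (Ideal.mem_span_singleton_self _)
  rw [QD, ← this]
  exact h4

theorem QD_univ (t : ℕ) : QD K (Set.univ : Set (Fin r →₀ ℕ)) t := by
  have h : MI K (Set.univ : Set (Fin r →₀ ℕ)) = ⊤ := by
    rw [Ideal.eq_top_iff_one]
    exact monomial_mem_MI (S := Set.univ) (α := 0) trivial 1
  rw [QD, h]
  have : Subsingleton (MvPolynomial (Fin r) K ⧸
      (⊤ : Ideal (MvPolynomial (Fin r) K))) :=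
    Submodule.Quotient.subsingleton_iff.2 rfl
  exact PD_of_subsingleton _

theorem QD_empty {t : ℕ} (ht : 1 ≤ t) : QD K (∅ : Set (Fin r →₀ ℕ)) t := by
  have h : MI K (∅ : Set (Fin r →₀ ℕ)) = ⊥ := by
    rw [MI, Set.image_empty, Ideal.span_empty]
  rw [QD, h]
  exact (PD.equiv (Submodule.quotEquivOfEqBot (⊥ : Ideal (MvPolynomial (Fin r) K)) rfl).symm
    (PD_projective (A := MvPolynomial (Fin r) K))).mono ht

/-- the set of exponents of a predicate on functions -/
def ES (P : (Fin r → ℕ) → Prop) : Set (Fin r →₀ ℕ) := {γ | P γ}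

theorem ES_upper {P : (Fin r → ℕ) → Prop} (hP : ∀ γ γ', γ ≤ γ' → P γ → P γ') :
    IsUpperSet (ES P) := fun a b hab ha => hP a b hab ha

theorem coe_single_add (i : Fin r) (c : ℕ) (γ : Fin r →₀ ℕ) :
    (⇑(Finsupp.single i c + γ) : Fin r → ℕ) = Function.update γ i (c + γ i) := by
  funext j
  by_cases h : j = i
  · subst h; simp
  · rw [Function.update_of_ne h, Finsupp.add_apply, Finsupp.single_eq_of_ne h, zero_add]

theorem update_le_update (γ γ' : Fin r → ℕ) (i : Fin r) (c c' : ℕ) (h : γ ≤ γ') (hc : c ≤ c') :
    Function.update γ i c ≤ Function.update γ' i c' := by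
  intro j
  by_cases hj : j = i
  · subst hj; simpa using hc
  · rw [Function.update_of_ne hj, Function.update_of_ne hj]; exact h j

/-- one variable at a time -/
theorem QD_step (P : (Fin r → ℕ) → Prop) (hP : ∀ γ γ', γ ≤ γ' → P γ → P γ') (i : Fin r) (N : ℕ)
    (hN : ∀ γ, N ≤ γ i → P γ → P (Function.update γ i N)) (t : ℕ)
    (h : ∀ c ≤ N, QD K (ES fun γ => P (Function.update γ i (if γ i = 0 then c else N))) t) :
    QD K (ES P) t := by
  let E : ℕ → Set (Fin r →₀ ℕ) := fun c => ES fun γ => P (if γ i < c then γ else Function.update γ i N)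
  have hle : ∀ γ : Fin r → ℕ, N ≤ γ i → Function.update γ i N ≤ γ := by
    intro γ hγ j
    by_cases hj : j = i
    · subst hj; simpa using hγ
    · rw [Function.update_of_ne hj]
  have hE : ∀ c, c ≤ N → IsUpperSet (E c) := by
    intro c hc
    apply ES_upper
    intro γ γ' hγγ h1
    have hi : γ i ≤ γ' i := hγγ i
    by_cases h2 : γ i < c
    · rw [if_pos h2] at h1
      by_cases h3 : γ' i < c
      · rw [if_pos h3]; exact hP _ _ hγγ h1
      · rw [if_neg h3]
        refine hP _ _ ?_ h1
        intro j
        by_cases hj : j = i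
        · subst hj; rw [Function.update_self]; show γ j ≤ N; omega
        · rw [Function.update_of_ne hj]; exact hγγ j
    · rw [if_neg h2] at h1
      rw [if_neg (by omega)]
      exact hP _ _ (update_le_update _ _ _ _ _ hγγ le_rfl) h1
  have hE0 : E 0 = ES fun γ => P (Function.update γ i (if γ i = 0 then N else N)) := by
    ext γ
    simp [E, ES]
  have hEN : E N = ES P := by
    ext γ
    show P _ ↔ P _
    by_cases h1 : γ i < N
    · rw [if_pos h1]
    · rw [if_neg h1]
      exact ⟨hP _ _ (hle γ (by omega)), hN γ (by omega)⟩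
  have h0 : QD K (E 0) t := by rw [hE0]; exact h N le_rfl
  have all : ∀ c, c ≤ N → QD K (E c) t := by
    intro c
    induction c with
    | zero => exact fun _ => h0
    | succ c ih =>
      intro hc
      have ihc := ih (by omega)
      have hPc : IsUpperSet (ES fun γ : Fin r → ℕ =>
          P (Function.update γ i (if γ i = 0 then c else N))) := by
        apply ES_upper
        intro γ γ' hγγ h1
        refine hP _ _ ?_ h1
        apply update_le_update _ _ _ _ _ hγγ
        have : γ i ≤ γ' i := hγγ i
        split_ifs <;> omega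
      have hsub : E (c + 1) ⊆ E c := by
        intro γ hγ
        show P _
        have hγ' : P _ := hγ
        by_cases h2 : γ i < c
        · rw [if_pos h2]; rwa [if_pos (by omega)] at hγ'
        · rw [if_neg h2]
          by_cases h3 : γ i < c + 1
          · rw [if_pos h3] at hγ'
            refine hP _ _ ?_ hγ'
            intro j
            by_cases hj : j = i
            · subst hj; rw [Function.update_self]; show γ j ≤ N; omega
            · rw [Function.update_of_ne hj]
          · rwa [if_neg h3] at hγ'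
      have hsub2 : (ES fun γ : Fin r → ℕ =>
          P (Function.update γ i (if γ i = 0 then c else N))) ⊆ E 0 := by
        intro γ hγ
        show P _
        rw [if_neg (by omega)]
        refine hP _ _ ?_ hγ
        apply update_le_update _ _ _ _ _ le_rfl
        split_ifs <;> omega
      refine PD_quot (MI K (E (c + 1))) (MI K (E c)) (MI_mono hsub) ?_ ihc
      refine PD_block (a := Finsupp.single i c) hPc (hE 0 (by omega)) (hE (c + 1) hc)
        (hE c (by omega)) ?_ ?_ ?_ ?_ (PD_map _ _ (MI_mono hsub2) (h c (by omega))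
          (h0.mono (Nat.le_succ t)))
      · intro α hα
        have hα' : P (Function.update α i N) := by
          have : P _ := hα
          rwa [if_neg (by omega)] at this
        show P _
        rw [coe_single_add, if_neg (by rw [Function.update_self]; omega), Function.update_idem]
        exact hα'
      · intro α hα
        have hα' : P _ := hα
        show P _
        rw [coe_single_add]
        by_cases h1 : α i = 0
        · rw [if_pos (by rw [Function.update_self]; omega)]
          rw [if_pos h1] at hα'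
          rwa [h1, add_zero]
        · rw [if_neg (by rw [Function.update_self]; omega), Function.update_idem]
          rwa [if_neg h1] at hα'
      · intro α hα hα2
        have hα' : P (Function.update α i N) := by
          have : P _ := hα
          rwa [if_neg (by omega)] at this
        have hα3 : P _ := hα2
        show P _
        rw [coe_single_add] at hα3
        by_cases h1 : α i = 0
        · rw [if_pos h1]
          rw [if_pos (by rw [Function.update_self]; omega)] at hα3
          rwa [h1, add_zero] at hα3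
        · rwa [if_neg h1]
      · intro β hβ hβ2
        have hβ' : P _ := hβ
        have hβ3 : ¬ P _ := hβ2
        have h1 : β i = c := by
          rcases lt_trichotomy (β i) c with h1 | h1 | h1
          · rw [if_pos h1] at hβ'
            rw [if_pos (by omega)] at hβ3
            exact absurd hβ' hβ3
          · exact h1
          · rw [if_neg (by omega)] at hβ'
            rw [if_neg (by omega)] at hβ3
            exact absurd hβ' hβ3
        refine ⟨β - Finsupp.single i c, ?_, ?_⟩
        · show P _
          rw [if_neg (by omega)]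
          rw [if_neg (by omega)] at hβ'
          refine hP _ _ ?_ hβ'
          intro j
          by_cases hj : j = i
          · subst hj; simp
          · rw [Function.update_of_ne hj, Function.update_of_ne hj, Finsupp.tsub_apply,
              Finsupp.single_eq_of_ne hj, tsub_zero]
        · rw [add_tsub_cancel_of_le]
          rw [Finsupp.single_le_iff]; omega
  rw [← hEN]
  exact all N le_rfl

/-- all variables -/
theorem QD_rad (P : (Fin r → ℕ) → Prop) (hP : ∀ γ γ', γ ≤ γ' → P γ → P γ') (N : ℕ)
    (hN : ∀ γ i, N ≤ γ i → P γ → P (Function.update γ i N)) (t : ℕ)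
    (h : ∀ a : Fin r → ℕ, (∀ v, a v ≤ N) → QD K (ES fun γ => P fun v => if γ v = 0 then a v else N) t) :
    QD K (ES P) t := by
  classical
  have key : ∀ V : Finset (Fin r),
      (∀ a : Fin r → ℕ, (∀ v, a v ≤ N) → QD K (ES fun γ => P fun v => if v ∈ V then
        (if γ v = 0 then a v else N) else γ v) t) → QD K (ES P) t := by
    intro V
    induction V using Finset.induction_on with
    | empty =>
      intro h
      have := h (fun _ => 0) (fun _ => Nat.zero_le _)
      simpa using this
    | insert i V hi ih =>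
      intro h
      apply ih
      intro a ha
      have hi2 : ∀ (γ : Fin r → ℕ) (x : ℕ), (fun v => if v ∈ V then
          (if (Function.update γ i x) v = 0 then a v else N) else (Function.update γ i x) v) =
          Function.update (fun v => if v ∈ V then (if γ v = 0 then a v else N) else γ v) i x := by
        intro γ x
        funext v
        by_cases hv : v = i
        · subst hv
          rw [if_neg hi, Function.update_self, Function.update_self]
        · rw [Function.update_of_ne hv, Function.update_of_ne hv]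
      refine QD_step (fun γ => P fun v => if v ∈ V then (if γ v = 0 then a v else N) else γ v)
        ?_ i N ?_ t ?_
      · intro γ γ' hγγ h1
        refine hP _ _ ?_ h1
        intro v
        have h3 : γ v ≤ γ' v := hγγ v
        have := ha v
        show (if v ∈ V then (if γ v = 0 then a v else N) else γ v) ≤
          (if v ∈ V then (if γ' v = 0 then a v else N) else γ' v)
        split_ifs <;> omega
      · intro γ hγ h1
        have h2 := hN _ i (by rw [if_neg hi]; exact hγ) h1
        rw [← hi2] at h2
        exact h2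
      · intro c hc
        have h1 := h (Function.update a i c) (by
          intro v
          by_cases hv : v = i
          · subst hv; simpa using hc
          · rw [Function.update_of_ne hv]; exact ha v)
        convert h1 using 4 with γ
        funext v
        by_cases hv : v = i
        · subst hv
          simp [hi]
        · simp [hv]
  apply key Finset.univ
  simpa using h

end Pool.Agent.H408R4
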