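import Mathlib
import Pool.Agent.H408R4.PdRad

/-!
Projective dimension of squarefree monomial ideals `⋂ (X_u, X_v)` over the edges of a graph.
-/

set_option autoImplicit false

namespace Pool.Agent.H408R4

open CategoryTheory Abelian Limits MvPolynomial
open Pool.Agent.Helper698.Dstab
open Pool.Agent.Helper698.Symb
open Pool.Agent.H408R3.PDF

universe u

variable {r : ℕ} {K : Type u} [Field K]

/-- exponents meeting every edge inside `A` -/
def JG (adj : Fin r → Fin r → Prop) (A : Finset (Fin r)) : Set (Fin r →₀ ℕ) :=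
  {γ | ∀ u ∈ A, ∀ v ∈ A, adj u v → γ u ≠ 0 ∨ γ v ≠ 0}

theorem JG_upper (adj : Fin r → Fin r → Prop) (A : Finset (Fin r)) : IsUpperSet (JG adj A) := by
  intro a b hab ha u hu v hv huv
  have h1 : a u ≤ b u := hab u
  have h2 : a v ≤ b v := hab v
  rcases ha u hu v hv huv with h | h
  · left; omega
  · right; omega

theorem single_add_ne (i j : Fin r) (γ : Fin r →₀ ℕ) (h : j ≠ i) :
    (Finsupp.single i 1 + γ : Fin r →₀ ℕ) j = γ j := by
  rw [Finsupp.add_apply, Finsupp.single_eq_of_ne h, zero_add]

theorem single_add_self (i : Fin r) (γ : Fin r →₀ ℕ) :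
    (Finsupp.single i 1 + γ : Fin r →₀ ℕ) i ≠ 0 := by
  rw [Finsupp.add_apply, Finsupp.single_eq_same]; omega

theorem single_le_iff' (i : Fin r) (γ : Fin r →₀ ℕ) : Finsupp.single i 1 ≤ γ ↔ γ i ≠ 0 := by
  rw [Finsupp.single_le_iff]; omega

/-- auxiliary sets -/
def IW (z : Fin r) (J : Set (Fin r →₀ ℕ)) (W : Finset (Fin r)) : Set (Fin r →₀ ℕ) :=
  {γ | γ z ≠ 0 ∨ ((∀ w ∈ W, γ w ≠ 0) ∧ γ ∈ J)}

theorem IW_upper (z : Fin r) (J : Set (Fin r →₀ ℕ)) (hJ : IsUpperSet J) (W : Finset (Fin r)) :
    IsUpperSet (IW z J W) := by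
  intro a b hab ha
  rcases ha with h | ⟨h1, h2⟩
  · left
    have h1 : a z ≤ b z := hab z
    omega
  · right
    refine ⟨fun w hw => ?_, hJ hab h2⟩
    have h3 : a w ≤ b w := hab w
    have := h1 w hw
    omega

theorem QD_IW (adj : Fin r → Fin r → Prop) (A : Finset (Fin r)) (z : Fin r) (hz : z ∉ A) {t : ℕ}
    (ht : 2 ≤ t) (h : QD K (JG adj A) t) (W : Finset (Fin r)) (hW : ∀ w ∈ W, w ∉ A ∧ w ≠ z) :
    QD K (IW z (JG adj A) W) (t + 1) := by
  classical
  have hind : ∀ w, w ∉ A → ∀ γ : Fin r →₀ ℕ, Finsupp.single w 1 + γ ∈ JG adj A ↔ γ ∈ JG adj A := by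
    intro w hw γ
    constructor
    · intro h1 u hu v hv huv
      have := h1 u hu v hv huv
      rwa [single_add_ne _ _ _ (ne_of_mem_of_not_mem hu hw),
        single_add_ne _ _ _ (ne_of_mem_of_not_mem hv hw)] at this
    · intro h1 u hu v hv huv
      rw [single_add_ne _ _ _ (ne_of_mem_of_not_mem hu hw),
        single_add_ne _ _ _ (ne_of_mem_of_not_mem hv hw)]
      exact h1 u hu v hv huv
  induction W using Finset.induction_on with
  | empty =>
    refine QD_reg (JG_upper adj A) z (fun γ => (hind z hz γ).1) ?_ h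
    intro γ
    constructor
    · rintro (h1 | ⟨_, h1⟩)
      · exact Or.inr h1
      · exact Or.inl h1
    · rintro (h1 | h1)
      · exact Or.inr ⟨by simp, h1⟩
      · exact Or.inl h1
  | insert w W hw ih =>
    have ihW := ih (fun w' hw' => hW w' (Finset.mem_insert_of_mem hw'))
    obtain ⟨hwA, hwz⟩ := hW w (Finset.mem_insert_self _ _)
    refine QD_split (IW_upper z _ (JG_upper adj A) _) (IW_upper z _ (JG_upper adj A) W)
      (Finsupp.single w 1) (E2 := US {z, w}) ?_ ?_ ihW ?_
    · intro γ
      constructor
      · rintro (h1 | ⟨h1, h2⟩)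
        · left
          rwa [single_add_ne _ _ _ (Ne.symm hwz)]
        · right
          refine ⟨fun w' hw' => ?_, (hind w hwA γ).2 h2⟩
          rcases Finset.mem_insert.1 hw' with rfl | hw'
          · exact single_add_self _ _
          · rw [single_add_ne _ _ _ (ne_of_mem_of_not_mem hw' hw)]
            exact h1 w' hw'
      · rintro (h1 | ⟨h1, h2⟩)
        · left
          rwa [single_add_ne _ _ _ (Ne.symm hwz)] at h1
        · right
          refine ⟨fun w' hw' => ?_, (hind w hwA γ).1 h2⟩
          have := h1 w' (Finset.mem_insert_of_mem hw')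
          rwa [single_add_ne _ _ _ (ne_of_mem_of_not_mem hw' hw)] at this
    · intro γ
      rw [single_le_iff']
      constructor
      · rintro ⟨j, hj, hne⟩
        rcases Finset.mem_insert.1 hj with rfl | hj
        · exact Or.inl (Or.inl hne)
        · rw [Finset.mem_singleton] at hj
          subst hj
          exact Or.inr hne
      · rintro ((h1 | ⟨h1, _⟩) | h1)
        · exact ⟨z, by simp, h1⟩
        · exact ⟨w, by simp, h1 w (Finset.mem_insert_self _ _)⟩
        · exact ⟨w, by simp, h1⟩
    · refine (PD_US ({z, w} : Finset (Fin r))).mono ?_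
      have := Finset.card_insert_le z {w}
      rw [Finset.card_singleton] at this
      omega

open Classical in
/-- removing a vertex -/
theorem QD_rec (adj : Fin r → Fin r → Prop) (hsymm : ∀ u v, adj u v → adj v u)
    (A : Finset (Fin r)) (z : Fin r) {t : ℕ} (ht : 2 ≤ t)
    (hzz : ¬ adj z z)
    (h1 : QD K (JG adj (A.erase z)) (t + 1))
    (h2 : QD K (JG adj (A.filter (fun w => w ≠ z ∧ ¬ adj z w))) t) : QD K (JG adj A) (t + 1) := by
  by_cases hz : z ∈ A
  swap
  · rwa [Finset.erase_eq_of_notMem hz] at h1
  refine QD_split (JG_upper adj A) (JG_upper adj (A.erase z)) (Finsupp.single z 1)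
    (E2 := IW z (JG adj (A.filter (fun w => w ≠ z ∧ ¬ adj z w))) (A.filter (fun w => adj z w)))
    ?_ ?_ h1 ?_
  · intro γ
    constructor
    · intro h u hu v hv huv
      by_cases huz : u = z
      · left; rw [huz]; exact single_add_self _ _
      by_cases hvz : v = z
      · right; rw [hvz]; exact single_add_self _ _
      rw [single_add_ne _ _ _ huz, single_add_ne _ _ _ hvz]
      exact h u (Finset.mem_erase.2 ⟨huz, hu⟩) v (Finset.mem_erase.2 ⟨hvz, hv⟩) huv
    · intro h u hu v hv huv
      obtain ⟨huz, hu⟩ := Finset.mem_erase.1 hu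
      obtain ⟨hvz, hv⟩ := Finset.mem_erase.1 hv
      have := h u hu v hv huv
      rwa [single_add_ne _ _ _ huz, single_add_ne _ _ _ hvz] at this
  · intro γ
    rw [single_le_iff']
    constructor
    · rintro (h | ⟨h, h'⟩)
      · exact Or.inr h
      · by_cases hγ : γ z ≠ 0
        · exact Or.inr hγ
        left
        intro u hu v hv huv
        by_cases h3 : adj z u
        · exact Or.inl (h u (Finset.mem_filter.2 ⟨hu, h3⟩))
        by_cases h4 : adj z v
        · exact Or.inr (h v (Finset.mem_filter.2 ⟨hv, h4⟩))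
        by_cases huz : u = z
        · exact absurd (huz ▸ huv) h4
        by_cases hvz : v = z
        · exact absurd (hsymm _ _ (hvz ▸ huv)) h3
        exact h' u (Finset.mem_filter.2 ⟨hu, huz, h3⟩) v (Finset.mem_filter.2 ⟨hv, hvz, h4⟩) huv
    · rintro (h | h)
      · by_cases hγ : γ z ≠ 0
        · exact Or.inl hγ
        right
        refine ⟨fun w hw => ?_, fun u hu v hv huv => ?_⟩
        · obtain ⟨hw, hzw⟩ := Finset.mem_filter.1 hw
          exact (h z hz w hw hzw).resolve_left hγ
        · exact h u (Finset.mem_filter.1 hu).1 v (Finset.mem_filter.1 hv).1 huv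
      · exact Or.inl h
  · refine QD_IW adj _ z (by simp) ht h2 _ ?_
    intro w hw
    obtain ⟨hw, hzw⟩ := Finset.mem_filter.1 hw
    refine ⟨fun h => (Finset.mem_filter.1 h).2.2 hzw, fun h => ?_⟩
    rw [h] at hzw
    exact hzz hzw

/-- no edges -/
theorem QD_edgeless (adj : Fin r → Fin r → Prop) (A : Finset (Fin r))
    (h : ∀ u ∈ A, ∀ v ∈ A, ¬ adj u v) (t : ℕ) : QD K (JG adj A) t := by
  have : JG adj A = Set.univ := by
    ext γ
    simp only [Set.mem_univ, iff_true]
    intro u hu v hv huv
    exact absurd huv (h u hu v hv)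
  rw [this]
  exact QD_univ t

/-- a star -/
theorem QD_star (adj : Fin r → Fin r → Prop) (hsymm : ∀ u v, adj u v → adj v u)
    (hirr : ∀ u, ¬ adj u u)
    (A : Finset (Fin r)) (c : Fin r) (h : ∀ u ∈ A, ∀ v ∈ A, adj u v → u = c ∨ v = c) :
    QD K (JG adj A) 3 := by
  classical
  refine QD_rec adj hsymm A c (t := 2) le_rfl (hirr c) ?_ ?_
  · apply QD_edgeless
    intro u hu v hv huv
    obtain ⟨hu1, hu⟩ := Finset.mem_erase.1 hu
    obtain ⟨hv1, hv⟩ := Finset.mem_erase.1 hv
    rcases h u hu v hv huv with h | h
    · exact hu1 h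
    · exact hv1 h
  · apply QD_edgeless
    intro u hu v hv huv
    obtain ⟨hu, hu1, _⟩ := Finset.mem_filter.1 hu
    obtain ⟨hv, hv1, _⟩ := Finset.mem_filter.1 hv
    rcases h u hu v hv huv with h | h
    · exact hu1 h
    · exact hv1 h

/-- a matching -/
theorem QD_matching {ι : Type} (uu vv : ι → Fin r) (adj : Fin r → Fin r → Prop)
    (hsymm : ∀ u v, adj u v → adj v u) (hirr : ∀ u, ¬ adj u u) (C : Finset ι) :
    ∀ A : Finset (Fin r), (∀ x ∈ A, ∀ y ∈ A, adj x y →
      ∃ j ∈ C, (x = uu j ∧ y = vv j) ∨ (x = vv j ∧ y = uu j)) → QD K (JG adj A) (C.card + 2) := by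
  classical
  induction C using Finset.induction_on with
  | empty =>
    intro A h
    apply QD_edgeless
    intro u hu v hv huv
    obtain ⟨j, hj, _⟩ := h u hu v hv huv
    simp at hj
  | insert j C hj ih =>
    intro A h
    rw [Finset.card_insert_of_notMem hj]
    have key : ∀ A' : Finset (Fin r), A' ⊆ A → uu j ∉ A' → QD K (JG adj A') (C.card + 2) := by
      intro A' hA' hu
      apply ih
      intro x hx y hy hxy
      obtain ⟨j', hj', h'⟩ := h x (hA' hx) y (hA' hy) hxy
      rcases Finset.mem_insert.1 hj' with rfl | hj'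
      · rcases h' with ⟨h1, _⟩ | ⟨_, h1⟩
        · exact absurd (h1 ▸ hx) hu
        · exact absurd (h1 ▸ hy) hu
      · exact ⟨j', hj', h'⟩
    refine QD_rec adj hsymm A (uu j) (t := C.card + 2) (by omega) (hirr _) ?_ ?_
    · exact (key _ (Finset.erase_subset _ _) (by simp)).mono (by omega)
    · exact key _ (Finset.filter_subset _ _) (by simp)

theorem PD_coker {R : Type u} [CommRing R] (I J : Ideal R) (hIJ : I ≤ J) {t : ℕ}
    (h1 : PD (R := R) (Submodule.map (Submodule.mkQ I) J) t) (h2 : PD (R := R) (R ⧸ I) (t + 1)) :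
    PD (R := R) (R ⧸ J) (t + 1) := by
  let P := Submodule.map (Submodule.mkQ I) J
  have h3 : PD (R := R) ((R ⧸ I) ⧸ P) (t + 1) :=
    PD_right P.subtype P.mkQ P.injective_subtype P.mkQ_surjective (LinearMap.exact_subtype_mkQ P)
      h1 h2
  exact PD.equiv (Submodule.quotientQuotientEquivQuotient I J hIJ) h3

/-- the pattern of a matching together with some variables -/
def MJ {ι : Type} (uu vv : ι → Fin r) (C : Finset ι) (U : Finset (Fin r)) : Set (Fin r →₀ ℕ) :=
  {γ | (∀ j ∈ C, γ (uu j) ≠ 0 ∨ γ (vv j) ≠ 0) ∨ ∃ w ∈ U, γ w ≠ 0}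

theorem MJ_upper {ι : Type} (uu vv : ι → Fin r) (C : Finset ι) (U : Finset (Fin r)) :
    IsUpperSet (MJ uu vv C U) := by
  intro a b hab ha
  rcases ha with h | ⟨w, hw, hne⟩
  · left
    intro j hj
    have h1 : a (uu j) ≤ b (uu j) := hab _
    have h2 : a (vv j) ≤ b (vv j) := hab _
    have := h j hj
    omega
  · right
    have h1 : a w ≤ b w := hab _
    exact ⟨w, hw, by omega⟩

theorem MJ_ub {ι : Type} (uu vv : ι → Fin r) (huv : ∀ i j, uu i ≠ vv j) (C : Finset ι)
    (U : Finset (Fin r))
    (hU : ∀ j ∈ C, uu j ∉ U ∧ vv j ∉ U) : QD K (MJ uu vv C U) (C.card + 2 + U.card) := by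
  classical
  induction U using Finset.induction_on with
  | empty =>
    let adj : Fin r → Fin r → Prop :=
      fun x y => ∃ j ∈ C, (x = uu j ∧ y = vv j) ∨ (x = vv j ∧ y = uu j)
    have h1 := QD_matching (K := K) uu vv adj
      (by
        rintro u v ⟨j, hj, h | h⟩
        · exact ⟨j, hj, Or.inr ⟨h.2, h.1⟩⟩
        · exact ⟨j, hj, Or.inl ⟨h.2, h.1⟩⟩)
      (by
        rintro u ⟨j, hj, ⟨h, h'⟩ | ⟨h, h'⟩⟩
        · exact huv j j (h.symm.trans h')
        · exact huv j j (h'.symm.trans h)) C Finset.univ (fun x _ y _ h => h)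
    have h2 : JG adj Finset.univ = MJ uu vv C ∅ := by
      ext γ
      constructor
      · intro h
        left
        intro j hj
        exact h _ (Finset.mem_univ _) _ (Finset.mem_univ _) ⟨j, hj, Or.inl ⟨rfl, rfl⟩⟩
      · rintro (h | ⟨w, hw, _⟩)
        · rintro u _ v _ ⟨j, hj, ⟨rfl, rfl⟩ | ⟨rfl, rfl⟩⟩
          · exact h j hj
          · exact (h j hj).symm
        · simp at hw
    rw [h2] at h1
    exact h1
  | insert w U hw ih =>
    rw [Finset.card_insert_of_notMem hw]
    refine QD_reg (MJ_upper uu vv C U) w ?_ ?_ (ih fun j hj => ?_)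
    · intro γ hγ
      rcases hγ with h | ⟨w', hw', hne⟩
      · left
        intro j hj
        have h1 := h j hj
        obtain ⟨h2, h3⟩ := hU j hj
        rwa [single_add_ne _ _ _ (ne_of_mem_of_not_mem (Finset.mem_insert_self w U) h2).symm,
          single_add_ne _ _ _ (ne_of_mem_of_not_mem (Finset.mem_insert_self w U) h3).symm] at h1
      · right
        refine ⟨w', hw', ?_⟩
        rwa [single_add_ne _ _ _ (ne_of_mem_of_not_mem hw' hw)] at hne
    · intro γ
      constructor
      · rintro (h | ⟨w', hw', hne⟩)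
        · exact Or.inl (Or.inl h)
        · rcases Finset.mem_insert.1 hw' with rfl | hw'
          · exact Or.inr hne
          · exact Or.inl (Or.inr ⟨w', hw', hne⟩)
      · rintro ((h | ⟨w', hw', hne⟩) | h)
        · exact Or.inl h
        · exact Or.inr ⟨w', Finset.mem_insert_of_mem hw', hne⟩
        · exact Or.inr ⟨w, Finset.mem_insert_self _ _, h⟩
    · obtain ⟨h2, h3⟩ := hU j hj
      exact ⟨fun h => h2 (Finset.mem_insert_of_mem h), fun h => h3 (Finset.mem_insert_of_mem h)⟩

theorem not_QD_US (W : Finset (Fin r)) (m : ℕ) (hm : W.card = m + 1) : ¬ QD K (US W) (m + 1) := by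
  intro h
  have h1 := EV_of_PD m _ h
  have h2 : W.card ≤ r := by simpa using Finset.card_le_univ W
  have h3 := not_EV_US (K := K) (r - W.card) W rfl
  apply h3
  refine EV.mono h1 ?_
  omega

theorem MJ_lb {ι : Type} (uu vv : ι → Fin r) (huv : ∀ i j, uu i ≠ vv j)
    (hu : Function.Injective uu) (hv : Function.Injective vv) (C : Finset ι) :
    C.Nonempty → ∀ U : Finset (Fin r), (∀ j ∈ C, uu j ∉ U ∧ vv j ∉ U) →
    ¬ QD K (MJ uu vv C U) (C.card + 1 + U.card) := by
  classical
  induction C using Finset.induction_on with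
  | empty => intro h; simp at h
  | insert j C hj ih =>
    intro _ U hU
    rw [Finset.card_insert_of_notMem hj]
    obtain ⟨hjU, hjU'⟩ := hU j (Finset.mem_insert_self _ _)
    have hcard : (insert (uu j) (insert (vv j) U)).card = U.card + 2 := by
      rw [Finset.card_insert_of_notMem, Finset.card_insert_of_notMem hjU']
      intro h
      rcases Finset.mem_insert.1 h with h | h
      · exact huv _ _ h
      · exact hjU h
    rcases C.eq_empty_or_nonempty with rfl | hC
    · have h1 : MJ uu vv (insert j (∅ : Finset ι)) U = US (insert (uu j) (insert (vv j) U)) := by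
        ext γ
        constructor
        · rintro (h | ⟨w, hw, hne⟩)
          · rcases h j (Finset.mem_insert_self _ _) with h | h
            · exact ⟨_, Finset.mem_insert_self _ _, h⟩
            · exact ⟨_, Finset.mem_insert_of_mem (Finset.mem_insert_self _ _), h⟩
          · exact ⟨w, Finset.mem_insert_of_mem (Finset.mem_insert_of_mem hw), hne⟩
        · rintro ⟨w, hw, hne⟩
          rcases Finset.mem_insert.1 hw with rfl | hw
          · left
            intro j' hj'
            have : j' = j := by simpa using hj'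
            rw [this]; exact Or.inl hne
          · rcases Finset.mem_insert.1 hw with rfl | hw
            · left
              intro j' hj'
              have : j' = j := by simpa using hj'
              rw [this]; exact Or.inr hne
            · exact Or.inr ⟨w, hw, hne⟩
      rw [h1]
      have := not_QD_US (K := K) (insert (uu j) (insert (vv j) U)) (U.card + 1) hcard
      intro h
      apply this
      rw [Finset.card_empty] at h
      have e : 0 + 1 + 1 + U.card = U.card + 1 + 1 := by omega
      rwa [e] at h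
    · intro hcon
      have hCU : ∀ i ∈ C, uu i ∉ insert (uu j) (insert (vv j) U) ∧
          vv i ∉ insert (uu j) (insert (vv j) U) := by
        intro i hi
        have hij : i ≠ j := fun h => hj (h ▸ hi)
        obtain ⟨h1, h2⟩ := hU i (Finset.mem_insert_of_mem hi)
        constructor
        · intro h
          rcases Finset.mem_insert.1 h with h | h
          · exact hij (hu h)
          · rcases Finset.mem_insert.1 h with h | h
            · exact huv _ _ h
            · exact h1 h
        · intro h
          rcases Finset.mem_insert.1 h with h | h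
          · exact huv _ _ h.symm
          · rcases Finset.mem_insert.1 h with h | h
            · exact hij (hv h)
            · exact h2 h
      have h1 := ih hC _ hCU
      apply h1
      rw [hcard]
      have e : C.card + 1 + (U.card + 2) = (C.card + 1 + 1 + U.card) + 1 := by omega
      rw [e]
      have hpos : 1 ≤ C.card := hC.card_pos
      -- the four sets
      have u1 := MJ_upper uu vv (insert j C) U
      have u2 := MJ_upper uu vv C U
      have u3 := isUpperSet_US (insert (uu j) (insert (vv j) U))
      have u4 := MJ_upper uu vv C (insert (uu j) (insert (vv j) U))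
      have s1 : MJ uu vv (insert j C) U ⊆ MJ uu vv C U := by
        rintro γ (h | h)
        · exact Or.inl fun i hi => h i (Finset.mem_insert_of_mem hi)
        · exact Or.inr h
      have s2 : US (insert (uu j) (insert (vv j) U)) ⊆
          MJ uu vv C (insert (uu j) (insert (vv j) U)) := fun γ h => Or.inr h
      have hmap := PD_map _ _ (MI_mono s1) hcon (((MJ_ub (K := K) uu vv huv C U
        (fun i hi => hU i (Finset.mem_insert_of_mem hi)))).mono (by omega))
      refine PD_coker _ _ (MI_mono s2) (PD_block u1 u2 u3 u4 0 ?_ ?_ ?_ ?_ hmap)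
        ((PD_US (insert (uu j) (insert (vv j) U))).mono (by omega))
      · intro γ hγ
        rw [zero_add]
        rcases hγ with h | ⟨w, hw, hne⟩
        · exact Or.inl h
        · exact Or.inr ⟨w, Finset.mem_insert_of_mem (Finset.mem_insert_of_mem hw), hne⟩
      · intro γ hγ
        rw [zero_add]
        rcases hγ with h | ⟨w, hw, hne⟩
        · rcases h j (Finset.mem_insert_self _ _) with h | h
          · exact ⟨_, Finset.mem_insert_self _ _, h⟩
          · exact ⟨_, Finset.mem_insert_of_mem (Finset.mem_insert_self _ _), h⟩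
        · exact ⟨w, Finset.mem_insert_of_mem (Finset.mem_insert_of_mem hw), hne⟩
      · intro γ hγ hγ2
        rw [zero_add] at hγ2
        rcases hγ with h | h
        · obtain ⟨w, hw, hne⟩ := hγ2
          rcases Finset.mem_insert.1 hw with rfl | hw
          · left
            intro i hi
            rcases Finset.mem_insert.1 hi with rfl | hi
            · exact Or.inl hne
            · exact h i hi
          · rcases Finset.mem_insert.1 hw with rfl | hw
            · left
              intro i hi
              rcases Finset.mem_insert.1 hi with rfl | hi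
              · exact Or.inr hne
              · exact h i hi
            · exact Or.inr ⟨w, hw, hne⟩
        · exact Or.inr h
      · intro γ hγ hγ2
        refine ⟨γ, ?_, (zero_add _).symm⟩
        rcases hγ with h | h
        · exact Or.inl h
        · exact absurd h hγ2

end Pool.Agent.H408R4
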