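import Mathlib
import Pool.Agent.H408R4.GraphPd

/-!
The analysis of the graphs attached to exponents.
-/

set_option autoImplicit false

namespace Pool.Agent.H408R4

open CategoryTheory Abelian Limits MvPolynomial
open Pool.Agent.Helper698.Dstab
open Pool.Agent.Helper698.Symb
open Pool.Agent.H408R3.PDF

universe u

/-- the local data at an exponent -/
structure Loc (I : Type) where
  α : ℕ
  A0 : ℕ
  B0 : ℕ
  a : I → ℕ
  b : I → ℕ
  κ : I → ℕ
  la : I → I → ℕ
  Lt : I → Prop
  early : Prop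
  act : I → Prop
  c : ℕ
  hα : 3 ≤ α
  hκ : ∀ i, κ i ≤ α + 1
  hκabove : ∀ i, A0 < a i → κ i ≤ a i - A0
  hκcrit : ∀ i, a i = A0 → κ i = c
  hκact : ∀ i, a i + 1 = A0 → act i → κ i = α + 1
  hκina : ∀ i, a i + 1 = A0 → ¬ act i → κ i = α
  hla : ∀ i j, la i j ≤ 2
  hlacrit : ∀ i j, a i = A0 → la i j = c
  hc : c ≤ 1
  hlacmp : ∀ i k j, a k = a i → (Lt k → Lt i) → la k j ≤ la i j
  hlatwo : ∀ i j, a i + 1 = A0 → early → Lt i → la i j = 2
  hlaone : ∀ i j, a i + 1 = A0 → (¬ early ∨ (¬ Lt i ∧ ¬ Lt j)) → la i j = 1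
  hlage : ∀ i j, a i + 1 = A0 → 1 ≤ la i j

namespace Loc

variable {I : Type} (D : Loc I)

/-- the edges between first and second vertices -/
def E (i j : I) : Prop :=
  (i = j ∧ D.a i + D.b i < D.A0 + D.B0 + D.κ i) ∨
  (i ≠ j ∧ D.α * D.a i + D.b j < D.α * D.A0 + D.B0 + D.la i j)

variable {D}

theorem E_self {i : I} (h : ¬ D.E i i) : D.A0 + D.B0 + D.κ i ≤ D.a i + D.b i := by
  by_contra hcon
  exact h (Or.inl ⟨rfl, by omega⟩)

theorem E_ne {i j : I} (h : ¬ D.E i j) (hij : i ≠ j) :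
    D.α * D.A0 + D.B0 + D.la i j ≤ D.α * D.a i + D.b j := by
  by_contra hcon
  exact h (Or.inr ⟨hij, by omega⟩)

variable {r : ℕ} {K : Type u} [Field K]

theorem bound {uu vv : I → Fin r} {adj : Fin r → Fin r → Prop}
    (hsymm : ∀ x y, adj x y → adj y x) (hirr : ∀ x, ¬ adj x x)
    (h1 : ∀ i j, D.E i j → adj (uu i) (vv j))
    (h2 : ∀ i j, i ≠ j → D.b i + D.b j < 2 * D.B0 → adj (vv i) (vv j))
    (h3 : ∀ x y, adj x y → (∃ i j, x = uu i ∧ y = vv j ∧ D.E i j) ∨
      (∃ i j, x = vv j ∧ y = uu i ∧ D.E i j) ∨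
      (∃ i j, i ≠ j ∧ x = vv i ∧ y = vv j ∧ D.b i + D.b j < 2 * D.B0))
    (g : ℕ) (hg : 2 ≤ g) (C : Finset I)
    (hC : ∀ j, D.act j → (D.early → ¬ D.Lt j) → j ∈ C) (hCg : C.card ≤ g) :
    ∀ (m : ℕ) (A : Finset (Fin r)), A.card = m → QD K (JG adj A) (g + 2) := by
  classical
  have hα := D.hα
  -- monotonicity of the multiplication by `α`
  have hm : ∀ x y : ℕ, x ≤ y → D.α * x ≤ D.α * y := fun x y h => Nat.mul_le_mul_left _ h
  have hm1 : ∀ x y : ℕ, x + 1 ≤ y → D.α * x + D.α ≤ D.α * y := fun x y h => by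
    calc D.α * x + D.α = D.α * (x + 1) := by ring
      _ ≤ _ := Nat.mul_le_mul_left _ h
  have hm2 : ∀ x : ℕ, x + 1 = D.A0 → D.α * x + D.α = D.α * D.A0 := fun x h => by
    rw [← h]; ring
  -- helpers
  have hnone : ∀ A' : Finset (Fin r), (∀ i j, uu i ∈ A' → vv j ∈ A' → ¬ D.E i j) →
      (∀ i j, i ≠ j → vv i ∈ A' → vv j ∈ A' → 2 * D.B0 ≤ D.b i + D.b j) →
      ∀ t, QD K (JG adj A') t := by
    intro A' n1 n2 t
    apply QD_edgeless
    intro x hx y hy hxy
    rcases h3 x y hxy with ⟨i, j, rfl, rfl, hE⟩ | ⟨i, j, rfl, rfl, hE⟩ | ⟨i, j, hij, rfl, rfl, hE⟩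
    · exact n1 i j hx hy hE
    · exact n1 i j hy hx hE
    · have := n2 i j hij hx hy
      omega
  have hstar : ∀ (A' : Finset (Fin r)) (c : I), (∀ i j, uu i ∈ A' → vv j ∈ A' → j ≠ c → ¬ D.E i j) →
      (∀ i j, i ≠ j → vv i ∈ A' → vv j ∈ A' → 2 * D.B0 ≤ D.b i + D.b j) →
      QD K (JG adj A') 3 := by
    intro A' c n1 n2
    apply QD_star adj hsymm hirr A' (vv c)
    intro x hx y hy hxy
    rcases h3 x y hxy with ⟨i, j, rfl, rfl, hE⟩ | ⟨i, j, rfl, rfl, hE⟩ | ⟨i, j, hij, rfl, rfl, hE⟩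
    · right
      by_contra hne
      exact n1 i j hx hy (fun h => hne (by rw [h])) hE
    · left
      by_contra hne
      exact n1 i j hy hx (fun h => hne (by rw [h])) hE
    · have := n2 i j hij hx hy
      omega
  have hmat : ∀ (A' : Finset (Fin r)) (C' : Finset I),
      (∀ i j, uu i ∈ A' → vv j ∈ A' → D.E i j → i = j ∧ j ∈ C') →
      (∀ i j, i ≠ j → vv i ∈ A' → vv j ∈ A' → 2 * D.B0 ≤ D.b i + D.b j) →
      QD K (JG adj A') (C'.card + 2) := by
    intro A' C' n1 n2
    apply QD_matching uu vv adj hsymm hirr C' A'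
    intro x hx y hy hxy
    rcases h3 x y hxy with ⟨i, j, rfl, rfl, hE⟩ | ⟨i, j, rfl, rfl, hE⟩ | ⟨i, j, hij, rfl, rfl, hE⟩
    · obtain ⟨rfl, hj⟩ := n1 i j hx hy hE
      exact ⟨i, hj, Or.inl ⟨rfl, rfl⟩⟩
    · obtain ⟨rfl, hj⟩ := n1 i j hy hx hE
      exact ⟨i, hj, Or.inr ⟨rfl, rfl⟩⟩
    · have := n2 i j hij hx hy
      omega
  intro m
  induction m using Nat.strong_induction_on with
  | _ m ih =>
  intro A hA
  -- the induction step
  have step : ∀ z ∈ A, QD K (JG adj (A.filter (fun w => w ≠ z ∧ ¬ adj z w))) (g + 1) →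
      QD K (JG adj A) (g + 2) := by
    intro z hz h
    refine QD_rec adj hsymm A z (t := g + 1) (by omega) (hirr z) ?_ h
    exact ih (A.erase z).card (by rw [← hA]; exact Finset.card_erase_lt_of_mem hz) _ rfl
  have hfilt : ∀ z w, w ∈ A.filter (fun w => w ≠ z ∧ ¬ adj z w) → w ∈ A ∧ w ≠ z ∧ ¬ adj z w :=
    fun z w h => Finset.mem_filter.1 h
  -- case 1
  by_cases c1 : ∃ i, vv i ∈ A ∧ D.b i < D.B0
  · obtain ⟨i, hi, hbi⟩ := c1
    apply step _ hi
    have hv : ∀ j, vv j ∈ A.filter (fun w => w ≠ vv i ∧ ¬ adj (vv i) w) → D.B0 < D.b j := by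
      intro j hj
      obtain ⟨_, hne, hadj⟩ := hfilt _ _ hj
      have hij : i ≠ j := fun h => hne (by rw [h])
      by_contra hcon
      exact hadj (h2 i j hij (by omega))
    have hu : ∀ k, uu k ∈ A.filter (fun w => w ≠ vv i ∧ ¬ adj (vv i) w) → D.A0 < D.a k := by
      intro k hk
      obtain ⟨_, _, hadj⟩ := hfilt _ _ hk
      have hE : ¬ D.E k i := fun h => hadj (hsymm _ _ (h1 k i h))
      by_cases hki : k = i
      · subst hki
        have := E_self hE
        omega
      · have := E_ne hE hki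
        by_contra hcon
        have := hm (D.a k) D.A0 (by omega)
        omega
    apply hnone
    · intro k j hk hj hE
      have h4 := hu k hk
      have h5 := hv j hj
      rcases hE with ⟨rfl, hE⟩ | ⟨hne, hE⟩
      · have := D.hκabove k h4
        omega
      · have := hm1 _ _ h4
        have := D.hla k j
        omega
    · intro k j _ hk hj
      have h4 := hv k hk
      have h5 := hv j hj
      omega
  push Not at c1
  -- no edges between second vertices from now on
  have hvv : ∀ z, ∀ i j, i ≠ j → vv i ∈ A.filter (fun w => w ≠ z ∧ ¬ adj z w) →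
      vv j ∈ A.filter (fun w => w ≠ z ∧ ¬ adj z w) → 2 * D.B0 ≤ D.b i + D.b j := by
    intro z i j _ hi hj
    have h4 := c1 i (hfilt _ _ hi).1
    have h5 := c1 j (hfilt _ _ hj).1
    omega
  -- case 2
  by_cases c2 : ∃ i, uu i ∈ A ∧ D.a i + 2 ≤ D.A0
  · -- choose the minimum of the key
    obtain ⟨i, hi, hmin⟩ : ∃ i, uu i ∈ A ∧ ∀ k, uu k ∈ A →
        2 * D.a i + (if D.Lt i then 0 else 1) ≤ 2 * D.a k + (if D.Lt k then 0 else 1) := by
      obtain ⟨i, hi, _⟩ := c2
      have hex : ∃ n, ∃ i, uu i ∈ A ∧ 2 * D.a i + (if D.Lt i then 0 else 1) = n :=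
        ⟨_, i, hi, rfl⟩
      obtain ⟨i, hi, hn⟩ := Nat.find_spec hex
      refine ⟨i, hi, fun k hk => ?_⟩
      rw [hn]
      exact Nat.find_min' hex ⟨k, hk, rfl⟩
    have hkey : ∀ k, uu k ∈ A → D.a i ≤ D.a k ∧ (D.a k = D.a i → D.Lt k → D.Lt i) := by
      intro k hk
      have := hmin k hk
      constructor
      · split_ifs at this <;> omega
      · intro h4 h5
        by_contra h6
        rw [if_neg h6, if_pos h5] at this
        omega
    have hai : D.a i + 2 ≤ D.A0 := by
      obtain ⟨k, hk, hk2⟩ := c2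
      have := (hkey k hk).1
      omega
    apply step _ hi
    refine (hstar _ i ?_ (hvv _)).mono (by omega)
    intro k j hk hj hji hE
    obtain ⟨hkA, hkne, _⟩ := hfilt _ _ hk
    obtain ⟨hjA, _, hadj⟩ := hfilt _ _ hj
    have hEij : ¬ D.E i j := fun h => hadj (h1 i j h)
    have h4 := E_ne hEij (fun h => hji h.symm)
    rcases hE with ⟨rfl, hE⟩ | ⟨hne, hE⟩
    · have h5 := (hkey k hkA).1
      obtain ⟨d, hd⟩ : ∃ d, D.A0 = D.a i + d := ⟨D.A0 - D.a i, by omega⟩
      obtain ⟨β, hβ⟩ : ∃ β, D.α = β + 1 := ⟨D.α - 1, by omega⟩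
      have h6 : D.α * D.A0 = D.α * D.a i + (β * d + d) := by rw [hd, hβ]; ring
      have h7 : β * 2 ≤ β * d := Nat.mul_le_mul_left _ (by omega)
      have h8 := D.hκ k
      omega
    · obtain ⟨h5, h6⟩ := hkey k hkA
      rcases h5.eq_or_lt with h5 | h5
      · have h7 := D.hlacmp i k j h5.symm (h6 h5.symm)
        rw [← h5] at hE
        omega
      · have h7 := hm1 _ _ h5
        have h8 := D.hla k j
        omega
  push Not at c2
  -- case 3a
  by_cases c3 : D.early ∧ ∃ i, uu i ∈ A ∧ D.Lt i ∧ D.a i + 1 = D.A0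
  · obtain ⟨he, i, hi, hL, hai⟩ := c3
    apply step _ hi
    refine (hstar _ i ?_ (hvv _)).mono (by omega)
    intro k j hk hj hji hE
    obtain ⟨hkA, hkne, _⟩ := hfilt _ _ hk
    obtain ⟨hjA, _, hadj⟩ := hfilt _ _ hj
    have hEij : ¬ D.E i j := fun h => hadj (h1 i j h)
    have h4 := E_ne hEij (fun h => hji h.symm)
    have h5 := D.hlatwo i j hai he hL
    have h6 := hm2 _ hai
    have h7 := c2 k hkA
    rcases hE with ⟨rfl, hE⟩ | ⟨hne, hE⟩
    · have h8 := D.hκ k
      omega
    · have h8 := D.hla k j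
      have h9 := hm (D.a i) (D.a k) (by omega)
      omega
  -- what is left of the `L` vertices
  have hE3 : ∀ k, uu k ∈ A → D.a k + 1 = D.A0 → D.early → ¬ D.Lt k :=
    fun k hk hak he hL => c3 ⟨he, k, hk, hL, hak⟩
  -- the common argument
  have hcommon : ∀ i, uu i ∈ A → D.a i + 1 = D.A0 → ∀ k j, uu k ∈ A → j ≠ i → ¬ D.E i j →
      D.E k j → k = j ∧ D.a j + 1 = D.A0 ∧ D.act j := by
    intro i hiA hai k j hkA hji hEij hE
    have h4 := E_ne hEij (fun h => hji h.symm)
    have h5 := D.hlage i j hai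
    have h6 := hm2 _ hai
    have h7 := c2 k hkA
    rcases hE with ⟨rfl, hE⟩ | ⟨hne, hE⟩
    · refine ⟨rfl, ?_⟩
      rcases lt_trichotomy (D.a k) D.A0 with h8 | h8 | h8
      · have hak : D.a k + 1 = D.A0 := by omega
        refine ⟨hak, ?_⟩
        by_contra hact
        have := D.hκina k hak hact
        omega
      · have := D.hκcrit k h8
        have := D.hc
        omega
      · have := D.hκabove k h8
        omega
    · exfalso
      rcases Nat.lt_or_ge (D.a k) D.A0 with h8 | h8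
      · have hak : D.a k + 1 = D.A0 := by omega
        have h9 : D.la k j ≤ D.la i j := by
          by_cases he : D.early
          · exact D.hlacmp i k j (by omega) (fun h => absurd h (hE3 k hkA hak he))
          · rw [D.hlaone k j hak (Or.inl he), D.hlaone i j hai (Or.inl he)]
        have h10 : D.a k = D.a i := by omega
        rw [h10] at hE
        omega
      · have h9 := hm _ _ h8
        have h10 := D.hla k j
        omega
  -- case 3b
  by_cases c4 : ∃ i, uu i ∈ A ∧ D.a i + 1 = D.A0 ∧ D.act i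
  · obtain ⟨i, hi, hai, hact⟩ := c4
    have hiC : i ∈ C := hC i hact (hE3 i hi hai)
    apply step _ hi
    have hcard : (C.erase i).card + 2 ≤ g + 1 := by
      rw [Finset.card_erase_of_mem hiC]
      have : 1 ≤ C.card := Finset.card_pos.2 ⟨i, hiC⟩
      omega
    refine (hmat _ (C.erase i) ?_ (hvv _)).mono hcard
    intro k j hk hj hE
    obtain ⟨hkA, hkne, _⟩ := hfilt _ _ hk
    obtain ⟨hjA, _, hadj⟩ := hfilt _ _ hj
    have hEij : ¬ D.E i j := fun h => hadj (h1 i j h)
    have hki : k ≠ i := fun h => hkne (by rw [h])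
    by_cases hji : j = i
    · exfalso
      rw [hji] at hEij hE
      have h4 := E_self hEij
      have h5 := D.hκact i hai hact
      rcases hE with ⟨h, _⟩ | ⟨hne, hE⟩
      · exact hki h
      · have h6 := hm2 _ hai
        have h7 := c2 k hkA
        have h8 := D.hla k i
        have h9 := hm (D.a i) (D.a k) (by omega)
        omega
    · obtain ⟨rfl, hak, hactk⟩ := hcommon i hi hai k j hkA hji hEij hE
      exact ⟨rfl, Finset.mem_erase.2 ⟨hji, hC k hactk (hE3 k hkA hak)⟩⟩
  -- case 3c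
  by_cases c5 : ∃ i, uu i ∈ A ∧ D.a i + 1 = D.A0
  · obtain ⟨i, hi, hai⟩ := c5
    have hact : ¬ D.act i := fun h => c4 ⟨i, hi, hai, h⟩
    apply step _ hi
    refine hnone _ ?_ (hvv _) _
    intro k j hk hj hE
    obtain ⟨hkA, hkne, _⟩ := hfilt _ _ hk
    obtain ⟨hjA, _, hadj⟩ := hfilt _ _ hj
    have hEij : ¬ D.E i j := fun h => hadj (h1 i j h)
    have hki : k ≠ i := fun h => hkne (by rw [h])
    by_cases hji : j = i
    · rw [hji] at hEij hE
      have h4 := E_self hEij
      have h5 := D.hκina i hai hact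
      rcases hE with ⟨h, _⟩ | ⟨hne, hE⟩
      · exact hki h
      · have h6 := hm2 _ hai
        have h7 := c2 k hkA
        rcases Nat.lt_or_ge (D.a k) D.A0 with h8 | h8
        · have hak : D.a k + 1 = D.A0 := by omega
          have h9 : D.la k i = 1 := by
            apply D.hlaone k i hak
            by_cases he : D.early
            · exact Or.inr ⟨hE3 k hkA hak he, hE3 i hi hai he⟩
            · exact Or.inl he
          have h10 : D.a k = D.a i := by omega
          rw [h10] at hE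
          omega
        · have h9 := hm _ _ h8
          have h10 := D.hla k i
          omega
    · obtain ⟨rfl, hak, hactk⟩ := hcommon i hi hai k j hkA hji hEij hE
      exact c4 ⟨k, hkA, hak, hactk⟩
  push Not at c5
  have c6 : ∀ k, uu k ∈ A → D.A0 ≤ D.a k := by
    intro k hk
    have h4 := c2 k hk
    have h5 := c5 k hk
    omega
  have hlast : ∀ k j, uu k ∈ A → D.B0 + D.c ≤ D.b j → ¬ D.E k j := by
    intro k j hk hbj hE
    have h4 := c6 k hk
    rcases hE with ⟨rfl, hE⟩ | ⟨hne, hE⟩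
    · rcases h4.eq_or_lt with h4 | h4
      · have := D.hκcrit k h4.symm
        omega
      · have := D.hκabove k h4
        omega
    · rcases h4.eq_or_lt with h4 | h4
      · have := D.hlacrit k j h4.symm
        rw [← h4] at hE
        omega
      · have h5 := hm1 _ _ h4
        have h6 := D.hla k j
        omega
  by_cases c7 : ∃ i, uu i ∈ A ∧ D.a i = D.A0
  · obtain ⟨i, hi, hai⟩ := c7
    apply step _ hi
    refine hnone _ ?_ (hvv _) _
    intro k j hk hj
    obtain ⟨hkA, hkne, _⟩ := hfilt _ _ hk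
    obtain ⟨hjA, _, hadj⟩ := hfilt _ _ hj
    have hEij : ¬ D.E i j := fun h => hadj (h1 i j h)
    apply hlast k j hkA
    by_cases hij : i = j
    · subst hij
      have h4 := E_self hEij
      have h5 := D.hκcrit i hai
      omega
    · have h4 := E_ne hEij hij
      have h5 := D.hlacrit i j hai
      rw [hai] at h4
      omega
  · push Not at c7
    refine hnone _ ?_ ?_ _
    · intro k j hk hj hE
      have h4 : D.A0 < D.a k := lt_of_le_of_ne (c6 k hk) (fun h => c7 k hk h.symm)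
      have h5 := c1 j hj
      rcases hE with ⟨rfl, hE⟩ | ⟨hne, hE⟩
      · have := D.hκabove k h4
        omega
      · have h6 := hm1 _ _ h4
        have h7 := D.hla k j
        omega
    · intro i j _ hi hj
      have h4 := c1 i hi
      have h5 := c1 j hj
      omega

end Loc

end Pool.Agent.H408R4
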