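import Mathlib
import Pool.Agent.H408R4.PdRad

/-!
Squarefree patterns do not increase the projective dimension.
-/

set_option autoImplicit false

namespace Pool.Agent.H408R4

open CategoryTheory Abelian Limits MvPolynomial
open Pool.Agent.Helper698.Dstab
open Pool.Agent.Helper698.Symb
open Pool.Agent.H408R3.PDF

universe u

section restriction

variable {R : Type u} [CommRing R] (φ : R →+* R)

/-- restriction of scalars along `φ` -/
def Res (_φ : R →+* R) (M : Type u) : Type u := M

instance instAddRes (M : Type u) [AddCommGroup M] : AddCommGroup (Res φ M) :=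
  inferInstanceAs (AddCommGroup M)

instance instModRes (M : Type u) [AddCommGroup M] [Module R M] : Module R (Res φ M) :=
  Module.compHom M φ

variable {A B : Type u} [AddCommGroup A] [Module R A] [AddCommGroup B] [Module R B]

/-- restriction of a linear map -/
def resMap (f : A →ₗ[R] B) : Res φ A →ₗ[R] Res φ B where
  toFun := f
  map_add' := f.map_add
  map_smul' := fun r a => f.map_smul (φ r) a

theorem res_fin (h : Module.Projective R (Res φ R)) (N : ℕ) :
    Module.Projective R (Res φ (Fin N → R)) := by
  let e : (Fin N → Res φ R) ≃ₗ[R] Res φ (Fin N → R) :=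
    { toFun := fun f => f
      map_add' := fun _ _ => rfl
      map_smul' := fun _ _ => rfl
      invFun := fun f => f
      left_inv := fun _ => rfl
      right_inv := fun _ => rfl }
  have h1 : Module.Projective R (Fin N → Res φ R) :=
    Module.Projective.of_equiv' (DirectSum.linearEquivFunOnFintype R (Fin N) (fun _ => Res φ R))
  exact Module.Projective.of_equiv' e

theorem PD_res [IsNoetherianRing R] (h : Module.Projective R (Res φ R)) : ∀ (m : ℕ) (M : Type u)
    [AddCommGroup M] [Module R M] [Module.Finite R M], PD (R := R) M (m + 1) →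
    PD (R := R) (Res φ M) (m + 1) := by
  intro m
  induction m with
  | zero =>
    intro M _ _ _ hM
    have hproj : Module.Projective R M := projective_of_PD hM
    obtain ⟨N, π, hπ⟩ := Module.Finite.exists_fin' R M
    obtain ⟨s, hs⟩ := Module.projective_lifting_property π LinearMap.id hπ
    have h1 := res_fin φ h N
    have h2 : (resMap φ π).comp (resMap φ s) = LinearMap.id := by
      ext x
      exact LinearMap.congr_fun hs x
    have h3 : Module.Projective R (Res φ M) := Module.Projective.of_split _ _ h2
    exact PD_projective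
  | succ m ih =>
    intro M _ _ _ hM
    obtain ⟨N, π, hπ⟩ := Module.Finite.exists_fin' R M
    have hex : Function.Exact (LinearMap.ker π).subtype π := LinearMap.exact_subtype_ker_map π
    have h1 : PD (R := R) (LinearMap.ker π) (m + 1) :=
      PD_left (LinearMap.ker π).subtype π (Submodule.injective_subtype _) hπ hex
        ((PD_projective (A := Fin N → R)).mono (by omega)) hM
    have h2 := ih (LinearMap.ker π) h1
    have h3 := res_fin φ h N
    exact PD_right (resMap φ (LinearMap.ker π).subtype) (resMap φ π)
      (Submodule.injective_subtype _) hπ hex h2 ((PD_projective (A := Res φ (Fin N → R))).mono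
        (by omega))

end restriction

variable {r : ℕ} {K : Type u} [Field K]

/-- division of exponents -/
noncomputable def dv (N : ℕ) (γ : Fin r →₀ ℕ) : Fin r →₀ ℕ := γ.mapRange (· / N) (Nat.zero_div _)

theorem dv_apply (N : ℕ) (γ : Fin r →₀ ℕ) (i : Fin r) : dv N γ i = γ i / N := by
  simp [dv]

/-- a function as a finitely supported function -/
noncomputable def fs (b : Fin r → ℕ) : Fin r →₀ ℕ := Finsupp.equivFunOnFinite.symm b

theorem fs_apply (b : Fin r → ℕ) (i : Fin r) : fs b i = b i := rfl

open Classical in
/-- the part of a polynomial with exponents congruent to `b` -/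
noncomputable def qp (K : Type u) [Field K] (N : ℕ) (b : Fin r → ℕ) :
    MvPolynomial (Fin r) K →ₗ[K] MvPolynomial (Fin r) K :=
  (basisMonomials (Fin r) K).constr K
    (fun γ => if (∀ i, γ i % N = b i) then monomial (dv N γ) (1 : K) else 0)

theorem qp_pos {N : ℕ} {b : Fin r → ℕ} {γ : Fin r →₀ ℕ} (h : ∀ i, γ i % N = b i) (c : K) :
    qp K N b (monomial γ c) = monomial (dv N γ) c := by
  have h1 : monomial γ c = c • (basisMonomials (Fin r) K γ) := by
    rw [coe_basisMonomials, smul_monomial, smul_eq_mul, mul_one]
  rw [h1, map_smul, qp, Module.Basis.constr_basis, if_pos h, smul_monomial, smul_eq_mul, mul_one]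

theorem qp_neg {N : ℕ} {b : Fin r → ℕ} {γ : Fin r →₀ ℕ} (h : ¬ ∀ i, γ i % N = b i) (c : K) :
    qp K N b (monomial γ c) = 0 := by
  have h1 : monomial γ c = c • (basisMonomials (Fin r) K γ) := by
    rw [coe_basisMonomials, smul_monomial, smul_eq_mul, mul_one]
  rw [h1, map_smul, qp, Module.Basis.constr_basis, if_neg h, smul_zero]

theorem qp_expand {N : ℕ} (hN : 0 < N) (b : Fin r → ℕ) (s f : MvPolynomial (Fin r) K) :
    qp K N b (expand N s * f) = s * qp K N b f := by
  induction s using MvPolynomial.induction_on' with
  | monomial σ c =>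
    induction f using MvPolynomial.induction_on' with
    | monomial γ d =>
      rw [expand_monomial, monomial_mul]
      by_cases h : ∀ i, γ i % N = b i
      · rw [qp_pos h, qp_pos (by
          intro i
          rw [Finsupp.add_apply, Finsupp.smul_apply, smul_eq_mul, Nat.mul_add_mod]
          exact h i), monomial_mul]
        have : dv N (N • σ + γ) = σ + dv N γ := by
          ext i
          rw [dv_apply, Finsupp.add_apply, Finsupp.add_apply, dv_apply, Finsupp.smul_apply,
            smul_eq_mul, Nat.mul_add_div hN]
        rw [this]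
      · rw [qp_neg h, mul_zero, qp_neg]
        intro h2
        apply h
        intro i
        have := h2 i
        rwa [Finsupp.add_apply, Finsupp.smul_apply, smul_eq_mul, Nat.mul_add_mod] at this
    | add p q hp hq => rw [mul_add, map_add, map_add, mul_add, hp, hq]
  | add p q hp hq => rw [map_add, add_mul, map_add, add_mul, hp, hq]

theorem qp_section {N : ℕ} (hN : 0 < N) (b : Fin r → ℕ) (hb : ∀ i, b i < N)
    (f : MvPolynomial (Fin r) K) : qp K N b (monomial (fs b) 1 * expand N f) = f := by
  rw [mul_comm, qp_expand hN, qp_pos (fun i => by rw [fs_apply, Nat.mod_eq_of_lt (hb i)])]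
  have : dv N (fs b) = 0 := by
    ext i
    rw [dv_apply, fs_apply, Nat.div_eq_of_lt (hb i)]; rfl
  rw [this]
  simp

theorem qp_sum {N : ℕ} (hN : 0 < N) (f : MvPolynomial (Fin r) K) :
    ∑ b : Fin r → Fin N, monomial (fs fun i => (b i : ℕ)) (1 : K) *
      expand N (qp K N (fun i => (b i : ℕ)) f) = f := by
  induction f using MvPolynomial.induction_on' with
  | monomial γ c =>
    rw [Finset.sum_eq_single (fun i => ⟨γ i % N, Nat.mod_lt _ hN⟩)]
    · rw [qp_pos (fun i => rfl), expand_monomial, monomial_mul, one_mul]
      have : (fs fun i => ((⟨γ i % N, Nat.mod_lt _ hN⟩ : Fin N) : ℕ)) + N • dv N γ = γ := by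
        ext i
        rw [Finsupp.add_apply, fs_apply, Finsupp.smul_apply, dv_apply, smul_eq_mul]
        exact Nat.mod_add_div _ _
      rw [this]
    · intro b _ hb
      rw [qp_neg, map_zero, mul_zero]
      intro h
      apply hb
      funext i
      exact Fin.ext (h i).symm
    · intro h
      exact absurd (Finset.mem_univ _) h
  | add p q hp hq =>
    simp only [map_add, mul_add, Finset.sum_add_distrib]
    rw [hp, hq]

/-- the `expand` ring homomorphism -/
noncomputable def ex (K : Type u) [Field K] (r N : ℕ) :
    MvPolynomial (Fin r) K →+* MvPolynomial (Fin r) K := (expand N).toRingHom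

theorem ex_apply (N : ℕ) (f : MvPolynomial (Fin r) K) : ex K r N f = expand N f := rfl

theorem projective_ex {N : ℕ} (hN : 0 < N) :
    Module.Projective (MvPolynomial (Fin r) K) (Res (ex K r N) (MvPolynomial (Fin r) K)) := by
  let s : Res (ex K r N) (MvPolynomial (Fin r) K) →ₗ[MvPolynomial (Fin r) K]
      ((Fin r → Fin N) → MvPolynomial (Fin r) K) :=
    { toFun := fun f b => qp K N (fun i => (b i : ℕ)) f
      map_add' := fun f g => by
        funext b
        exact map_add (qp K N (fun i => (b i : ℕ))) f g
      map_smul' := fun a f => by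
        funext b
        exact qp_expand hN _ a f }
  let p : ((Fin r → Fin N) → MvPolynomial (Fin r) K) →ₗ[MvPolynomial (Fin r) K]
      Res (ex K r N) (MvPolynomial (Fin r) K) :=
    { toFun := fun f => (∑ b : Fin r → Fin N, monomial (fs fun i => (b i : ℕ)) (1 : K) *
        expand N (f b) : MvPolynomial (Fin r) K)
      map_add' := fun f g => by
        show (∑ b : Fin r → Fin N, monomial (fs fun i => (b i : ℕ)) (1 : K) *
          expand N (f b + g b) : MvPolynomial (Fin r) K) =
          (∑ b : Fin r → Fin N, monomial (fs fun i => (b i : ℕ)) (1 : K) *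
          expand N (f b) : MvPolynomial (Fin r) K) +
          (∑ b : Fin r → Fin N, monomial (fs fun i => (b i : ℕ)) (1 : K) *
          expand N (g b) : MvPolynomial (Fin r) K)
        simp only [map_add, mul_add, Finset.sum_add_distrib]
      map_smul' := fun a f => by
        show (∑ b : Fin r → Fin N, monomial (fs fun i => (b i : ℕ)) (1 : K) *
          expand N (a * f b) : MvPolynomial (Fin r) K) = expand N a *
          (∑ b : Fin r → Fin N, monomial (fs fun i => (b i : ℕ)) (1 : K) *
          expand N (f b) : MvPolynomial (Fin r) K)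
        rw [Finset.mul_sum]
        apply Finset.sum_congr rfl
        intro b _
        rw [map_mul]; ring }
  refine Module.Projective.of_split s p ?_
  apply LinearMap.ext
  intro f
  exact qp_sum hN f

theorem QD_expand {E E' : Set (Fin r →₀ ℕ)} (hE : IsUpperSet E) (hE' : IsUpperSet E') {N : ℕ}
    (hN : 0 < N) (b : Fin r → ℕ) (hb : ∀ i, b i < N) (hEE : ∀ γ, γ ∈ E' ↔ fs b + N • γ ∈ E)
    {m : ℕ} (h : QD K E (m + 1)) : QD K E' (m + 1) := by
  have h1 := PD_res (ex K r N) (projective_ex hN) m (MvPolynomial (Fin r) K ⧸ MI K E) h
  have hs : ∀ f ∈ MI K E', monomial (fs b) (1 : K) * expand N f ∈ MI K E := by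
    intro f hf
    rw [mem_MI hE'] at hf
    rw [f.as_sum, map_sum, Finset.mul_sum]
    apply Ideal.sum_mem
    intro γ hγ
    rw [expand_monomial, monomial_mul, one_mul]
    exact monomial_mem_MI ((hEE γ).1 (hf γ hγ)) _
  have hp : ∀ f ∈ MI K E, qp K N b f ∈ MI K E' := by
    intro f hf
    rw [mem_MI hE] at hf
    rw [f.as_sum, map_sum]
    apply Ideal.sum_mem
    intro γ hγ
    by_cases h2 : ∀ i, γ i % N = b i
    · rw [qp_pos h2]
      apply monomial_mem_MI
      rw [hEE]
      have : fs b + N • dv N γ = γ := by
        ext i
        rw [Finsupp.add_apply, fs_apply, Finsupp.smul_apply, dv_apply, smul_eq_mul, ← h2 i]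
        exact Nat.mod_add_div _ _
      rw [this]
      exact hf γ hγ
    · rw [qp_neg h2]
      exact Ideal.zero_mem _
  -- the maps
  let s : (MvPolynomial (Fin r) K ⧸ MI K E') →ₗ[MvPolynomial (Fin r) K]
      Res (ex K r N) (MvPolynomial (Fin r) K ⧸ MI K E) :=
    Submodule.liftQ (MI K E')
      { toFun := fun f => (Submodule.Quotient.mk (monomial (fs b) (1 : K) * expand N f) :
          MvPolynomial (Fin r) K ⧸ MI K E)
        map_add' := fun f g => by
          rw [map_add, mul_add]; rfl
        map_smul' := fun a f => by
          rw [smul_eq_mul, map_mul]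
          show (Submodule.Quotient.mk (monomial (fs b) (1 : K) * (expand N a * expand N f)) :
            MvPolynomial (Fin r) K ⧸ MI K E) = Submodule.Quotient.mk (expand N a *
              (monomial (fs b) (1 : K) * expand N f))
          congr 1; ring }
      (by
        intro f hf
        exact (Submodule.Quotient.mk_eq_zero _).2 (hs f hf))
  let p0 : (MvPolynomial (Fin r) K ⧸ MI K E) →+ (MvPolynomial (Fin r) K ⧸ MI K E') :=
    QuotientAddGroup.lift (MI K E).toAddSubgroup
      ((Submodule.mkQ (MI K E')).toAddMonoidHom.comp (qp K N b).toAddMonoidHom) (by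
        intro f hf
        exact (Submodule.Quotient.mk_eq_zero _).2 (hp f hf))
  have hp0 : ∀ f, p0 (Submodule.Quotient.mk f) = Submodule.Quotient.mk (qp K N b f) := fun f => rfl
  let p : Res (ex K r N) (MvPolynomial (Fin r) K ⧸ MI K E) →ₗ[MvPolynomial (Fin r) K]
      (MvPolynomial (Fin r) K ⧸ MI K E') :=
    { toFun := fun x => p0 x
      map_add' := fun x y => p0.map_add x y
      map_smul' := fun a x => by
        obtain ⟨f, rfl⟩ := Submodule.Quotient.mk_surjective _ x
        show p0 (Submodule.Quotient.mk (expand N a * f)) = a • p0 (Submodule.Quotient.mk f)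
        rw [hp0, hp0, qp_expand hN]
        rfl }
  refine PD_retract s p ?_ h1
  apply LinearMap.ext
  intro x
  obtain ⟨f, rfl⟩ := Submodule.Quotient.mk_surjective _ x
  show p0 (Submodule.Quotient.mk (monomial (fs b) (1 : K) * expand N f)) = Submodule.Quotient.mk f
  rw [hp0, qp_section hN b hb]

end Pool.Agent.H408R4
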