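import Mathlib
import Pool.Agent.Helper698.SE
import Pool.Agent.H408R4.PdExpand
import Pool.Agent.H408R4.GraphPd

/-!
Symbolic powers of monomial ideals given by conditions on pairs of variables.
-/

set_option autoImplicit false

namespace Pool.Agent.H408R4

open CategoryTheory Abelian Limits MvPolynomial
open Pool.Agent.Helper698.Dstab
open Pool.Agent.Helper698.Symb
open Pool.Agent.H408R3.PDF

universe u

/-- a system of conditions on pairs of variables -/
structure Sys (r : ℕ) where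
  adm : Fin r → Fin r → Prop
  T : Fin r → Fin r → ℕ → ℕ → ℕ → Prop
  ne : ∀ x y, adm x y → x ≠ y
  up : ∀ x y t a b a' b', T x y t a b → a ≤ a' → b ≤ b' → T x y t a' b'
  add : ∀ x y t a b a' b', T x y t a b → T x y 1 a' b' → T x y (t + 1) (a + a') (b + b')
  dec : ∀ x y t a b, 1 ≤ t → T x y (t + 1) a b → ∃ a0 b0, a0 ≤ a ∧ b0 ≤ b ∧ T x y 1 a0 b0 ∧
    T x y t (a - a0) (b - b0)
  pos : ∀ x y t, adm x y → 1 ≤ t → ¬ T x y t 0 0
  big : ∀ t, ∃ M, ∀ x y a b, (M ≤ a ∨ M ≤ b) → T x y t a b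
  uniq : ∀ x y x' y', adm x y → adm x' y' → (x' = x ∨ x' = y) → (y' = x ∨ y' = y) →
    (x' = x ∧ y' = y) ∨ (x' = y ∧ y' = x ∧ ∀ t a b, T x y t a b → T y x t b a)

variable {r : ℕ} {K : Type u} [Field K]

theorem US_sub {G G' : Finset (Fin r)} (hle : MI K (US G) ≤ MI K (US G')) : G ⊆ G' := by
  intro i hi
  have h1 := (US_le_iff G (MI K (US G'))).1 hle i hi
  rw [mem_MI (isUpperSet_US G')] at h1
  obtain ⟨j, hj, hne⟩ := h1 (Finsupp.single i 1) (by simp [X])
  rw [Finsupp.single_apply] at hne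
  split_ifs at hne with hij
  · exact hij ▸ hj
  · exact absurd rfl hne

theorem prime_monomial (p : Ideal (MvPolynomial (Fin r) K)) [hp : p.IsPrime] (s : Fin r →₀ ℕ)
    (h : monomial s (1 : K) ∈ p) : ∃ i, s i ≠ 0 ∧ (X i : MvPolynomial (Fin r) K) ∈ p := by
  rw [monomial_eq, C_1, one_mul, Finsupp.prod, Ideal.IsPrime.prod_mem_iff] at h
  obtain ⟨i, hi, hi'⟩ := h
  exact ⟨i, Finsupp.mem_support_iff.1 hi, hp.mem_of_pow_mem _ hi'⟩

namespace Sys

variable (S : Sys r)

/-- one condition -/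
def TT (x y : Fin r) (t : ℕ) : Set (Fin r →₀ ℕ) := {γ | S.T x y t (γ x) (γ y)}

/-- all conditions -/
def SN (t : ℕ) : Set (Fin r →₀ ℕ) := {γ | ∀ x y, S.adm x y → S.T x y t (γ x) (γ y)}

variable {S}

theorem TT_upper (x y : Fin r) (t : ℕ) : IsUpperSet (S.TT x y t) := by
  intro a b hab ha
  exact S.up _ _ _ _ _ _ _ ha (hab x) (hab y)

theorem SN_upper (t : ℕ) : IsUpperSet (S.SN t) := by
  intro a b hab ha x y hxy
  exact S.up _ _ _ _ _ _ _ (ha x y hxy) (hab x) (hab y)

theorem TT_congr {x y : Fin r} {t : ℕ} (α β : Fin r →₀ ℕ)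
    (h : ∀ i ∈ ({x, y} : Finset (Fin r)), α i = β i) (hα : α ∈ S.TT x y t) : β ∈ S.TT x y t := by
  have h1 := h x (by simp)
  have h2 := h y (by simp)
  have h3 : S.T x y t (α x) (α y) := hα
  show S.T x y t (β x) (β y)
  rwa [← h1, ← h2]

theorem TT_pow {x y : Fin r} (hxy : x ≠ y) (n : ℕ) (hn : 1 ≤ n) :
    MI K (S.TT x y 1) ^ n = MI K (S.TT x y n) := by
  induction n, hn using Nat.le_induction with
  | base => rw [pow_one]
  | succ n hn ih =>
    rw [pow_succ, ih]
    apply le_antisymm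
    · exact MI_mul_le fun α hα β hβ => S.add _ _ _ _ _ _ _ hα hβ
    · refine MI_le_mul fun α hα => ?_
      obtain ⟨a0, b0, h1, h2, h3, h4⟩ := S.dec _ _ _ _ _ hn hα
      have e1 : (Finsupp.single x a0 + Finsupp.single y b0 : Fin r →₀ ℕ) x = a0 := by
        rw [Finsupp.add_apply, Finsupp.single_eq_same, Finsupp.single_eq_of_ne hxy, add_zero]
      have e2 : (Finsupp.single x a0 + Finsupp.single y b0 : Fin r →₀ ℕ) y = b0 := by
        rw [Finsupp.add_apply, Finsupp.single_eq_same, Finsupp.single_eq_of_ne hxy.symm, zero_add]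
      refine ⟨Finsupp.single x a0 + Finsupp.single y b0, ?_,
        α - (Finsupp.single x a0 + Finsupp.single y b0), ?_, ?_⟩
      · show S.T x y 1 _ _
        rw [e1, e2]; exact h3
      · show S.T x y n _ _
        rw [Finsupp.tsub_apply, Finsupp.tsub_apply, e1, e2]; exact h4
      · rw [tsub_add_cancel_of_le]
        intro i
        by_cases hix : i = x
        · rw [hix, e1]; exact h1
        · by_cases hiy : i = y
          · rw [hiy, e2]; exact h2
          · rw [Finsupp.add_apply, Finsupp.single_eq_of_ne hix, Finsupp.single_eq_of_ne hiy]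
            exact Nat.zero_le _

theorem TT_sub_US {x y : Fin r} {t : ℕ} (hxy : S.adm x y) (ht : 1 ≤ t) :
    S.TT x y t ⊆ US {x, y} := by
  intro α hα
  by_contra hcon
  have h1 : α x = 0 := by
    by_contra h; exact hcon ⟨x, by simp, h⟩
  have h2 : α y = 0 := by
    by_contra h; exact hcon ⟨y, by simp, h⟩
  have h3 : S.T x y t (α x) (α y) := hα
  rw [h1, h2] at h3
  exact S.pos x y t hxy ht h3

theorem SN_sub_TT {x y : Fin r} {t : ℕ} (hxy : S.adm x y) : S.SN t ⊆ S.TT x y t :=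
  fun _ hα => hα x y hxy

open Classical in
/-- a large exponent outside `G` -/
noncomputable def bg (M : ℕ) (G : Finset (Fin r)) : Fin r →₀ ℕ :=
  fs fun i => if i ∈ G then 0 else M

open Classical in
theorem bg_apply (M : ℕ) (G : Finset (Fin r)) (i : Fin r) :
    bg M G i = if i ∈ G then 0 else M := rfl

theorem exists_US_le (p : Ideal (MvPolynomial (Fin r) K)) [hp : p.IsPrime]
    (hI : MI K (S.SN 1) ≤ p) : ∃ x y, S.adm x y ∧ MI K (US {x, y}) ≤ p := by
  classical
  obtain ⟨M, hM⟩ := S.big 1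
  set U : Finset (Fin r) := Finset.univ.filter (fun i => (X i : MvPolynomial (Fin r) K) ∈ p)
    with hU
  by_contra hcon
  push Not at hcon
  have h1 : monomial (bg M U) (1 : K) ∉ p := by
    intro hmem
    obtain ⟨i, hi, hi'⟩ := prime_monomial p _ hmem
    have hiU : i ∈ U := Finset.mem_filter.2 ⟨Finset.mem_univ _, hi'⟩
    rw [bg_apply, if_pos hiU] at hi
    exact hi rfl
  apply h1
  apply hI
  apply monomial_mem_MI
  intro x y hxy
  have h2 := hcon x y hxy
  rw [US_le_iff] at h2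
  push Not at h2
  obtain ⟨i, hi, hip⟩ := h2
  have hiU : i ∉ U := fun h => hip (Finset.mem_filter.1 h).2
  have h3 : bg M U i = M := by rw [bg_apply, if_neg hiU]
  rcases Finset.mem_insert.1 hi with rfl | hi
  · exact hM _ _ _ _ (Or.inl h3.symm.le)
  · rw [Finset.mem_singleton] at hi
    subst hi
    exact hM _ _ _ _ (Or.inr h3.symm.le)

theorem mem_minimalPrimes_iff (p : Ideal (MvPolynomial (Fin r) K)) :
    p ∈ (MI K (S.SN 1)).minimalPrimes ↔ ∃ x y, S.adm x y ∧ p = MI K (US {x, y}) := by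
  have hsub : ∀ x y, S.adm x y → MI K (S.SN 1) ≤ MI K (US {x, y}) :=
    fun x y hxy => MI_mono ((SN_sub_TT hxy).trans (TT_sub_US hxy le_rfl))
  constructor
  · intro hp
    have : p.IsPrime := hp.1.1
    obtain ⟨x, y, hxy, hle⟩ := exists_US_le p hp.1.2
    refine ⟨x, y, hxy, le_antisymm ?_ hle⟩
    exact hp.2 ⟨isPrime_US _, hsub x y hxy⟩ hle
  · rintro ⟨x, y, hxy, rfl⟩
    refine ⟨⟨isPrime_US _, hsub x y hxy⟩, ?_⟩
    rintro q ⟨hq, hIq⟩ hle
    obtain ⟨x', y', hxy', hle'⟩ := exists_US_le q hIq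
    have h1 := US_sub (hle'.trans hle)
    have hx := h1 (show x' ∈ ({x', y'} : Finset (Fin r)) by simp)
    have hy := h1 (show y' ∈ ({x', y'} : Finset (Fin r)) by simp)
    simp only [Finset.mem_insert, Finset.mem_singleton] at hx hy
    have h2 : ({x, y} : Finset (Fin r)) = {x', y'} := by
      rcases S.uniq x y x' y' hxy hxy' hx hy with ⟨rfl, rfl⟩ | ⟨rfl, rfl, _⟩
      · rfl
      · exact Finset.pair_comm _ _
    show MI K (US {x, y}) ≤ q
    rw [h2]
    exact hle'

theorem pow_le_TT {n : ℕ} (hn : 1 ≤ n) {x y : Fin r} (hxy : S.adm x y) :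
    MI K (S.SN 1) ^ n ≤ MI K (S.TT x y n) := by
  rw [← TT_pow (S.ne _ _ hxy) n hn]
  exact Ideal.pow_right_mono (MI_mono (SN_sub_TT hxy)) n

theorem bg_mul_mem {n : ℕ} (hn : 1 ≤ n) {x y : Fin r} (hxy : S.adm x y) {M : ℕ}
    (hM : ∀ x y a b, (M ≤ a ∨ M ≤ b) → S.T x y 1 a b)
    (f : MvPolynomial (Fin r) K) (hf : f ∈ MI K (S.TT x y n)) :
    monomial (bg M {x, y}) (1 : K) ^ n * f ∈ MI K (S.SN 1) ^ n := by
  classical
  have h1 : Ideal.span {monomial (bg M {x, y}) (1 : K)} * MI K (S.TT x y 1) ≤ MI K (S.SN 1) := by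
    have h2 : Ideal.span {monomial (bg M {x, y}) (1 : K)} = MI K {bg M {x, y}} := by
      rw [MI, Set.image_singleton]
    rw [h2]
    apply MI_mul_le
    intro α hα β hβ
    rw [Set.mem_singleton_iff] at hα
    subst hα
    have hin : ∀ i, (i = x ∨ i = y) → (bg M {x, y} + β : Fin r →₀ ℕ) i = β i := by
      intro i hi
      rw [Finsupp.add_apply, bg_apply, if_pos (by simpa using hi), zero_add]
    have hout : ∀ i, ¬ (i = x ∨ i = y) → M ≤ (bg M {x, y} + β : Fin r →₀ ℕ) i := by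
      intro i hi
      rw [Finsupp.add_apply, bg_apply, if_neg (by simpa using hi)]
      omega
    intro x' y' hxy'
    by_cases hx : x' = x ∨ x' = y
    · by_cases hy : y' = x ∨ y' = y
      · rw [hin _ hx, hin _ hy]
        rcases S.uniq x y x' y' hxy hxy' hx hy with ⟨rfl, rfl⟩ | ⟨rfl, rfl, h3⟩
        · exact hβ
        · exact h3 _ _ _ hβ
      · exact hM _ _ _ _ (Or.inr (hout _ hy))
    · exact hM _ _ _ _ (Or.inl (hout _ hx))
  have h3 : (Ideal.span {monomial (bg M {x, y}) (1 : K)} * MI K (S.TT x y 1)) ^ n ≤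
      MI K (S.SN 1) ^ n := Ideal.pow_right_mono h1 n
  rw [mul_pow, TT_pow (S.ne _ _ hxy) n hn] at h3
  exact h3 (Ideal.mul_mem_mul (Ideal.pow_mem_pow (Ideal.mem_span_singleton_self _) n) hf)

theorem bg_notMem (M : ℕ) (G : Finset (Fin r)) : monomial (bg M G) (1 : K) ∉ MI K (US G) := by
  classical
  rw [mem_MI (isUpperSet_US G)]
  intro hcon
  obtain ⟨i, hi, hne⟩ := hcon (bg M G) (by simp)
  apply hne
  rw [bg_apply, if_pos hi]

theorem symb {t : ℕ} (ht : 1 ≤ t) (f : MvPolynomial (Fin r) K) :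
    f ∈ MI K (S.SN t) ↔ ∀ P ∈ (MI K (S.SN 1)).minimalPrimes, ∃ u : MvPolynomial (Fin r) K,
      u ∉ P ∧ u * f ∈ MI K (S.SN 1) ^ t := by
  classical
  rw [mem_MI (SN_upper t)]
  constructor
  · intro hf P hP
    obtain ⟨x, y, hxy, rfl⟩ := (mem_minimalPrimes_iff P).1 hP
    obtain ⟨M, hM⟩ := S.big 1
    refine ⟨monomial (bg M {x, y}) (1 : K) ^ t, fun hmem => ?_, bg_mul_mem ht hxy hM f ?_⟩
    · exact bg_notMem M _ ((isPrime_US _).mem_of_pow_mem _ hmem)
    · rw [mem_MI (TT_upper x y t)]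
      exact fun α hα => hf α hα x y hxy
  · intro hf α hα x y hxy
    obtain ⟨a, ha, haf⟩ := hf (MI K (US {x, y})) ((mem_minimalPrimes_iff _).2 ⟨x, y, hxy, rfl⟩)
    have h1 := primary_lemma {x, y} (S.TT x y t) (TT_upper x y t)
      TT_congr a f ha (pow_le_TT ht hxy haf)
    rw [mem_MI (TT_upper x y t)] at h1
    exact h1 α hα

variable (S)

/-- the graph attached to an exponent -/
def adj (t : ℕ) (a : Fin r → ℕ) (x y : Fin r) : Prop :=
  (S.adm x y ∧ ¬ S.T x y t (a x) (a y)) ∨ (S.adm y x ∧ ¬ S.T y x t (a y) (a x))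

variable {S}

theorem adj_symm (t : ℕ) (a : Fin r → ℕ) (x y : Fin r) (h : S.adj t a x y) : S.adj t a y x :=
  h.symm

theorem adj_irrefl (t : ℕ) (a : Fin r → ℕ) (x : Fin r) : ¬ S.adj t a x x := by
  rintro (⟨h, _⟩ | ⟨h, _⟩)
  · exact S.ne _ _ h rfl
  · exact S.ne _ _ h rfl

theorem mem_JG_adj {t : ℕ} {a : Fin r → ℕ} {γ : Fin r →₀ ℕ} :
    γ ∈ JG (S.adj t a) Finset.univ ↔
      ∀ x y, S.adm x y → ¬ S.T x y t (a x) (a y) → γ x ≠ 0 ∨ γ y ≠ 0 := by
  constructor
  · intro h x y h1 h2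
    exact h x (Finset.mem_univ _) y (Finset.mem_univ _) (Or.inl ⟨h1, h2⟩)
  · rintro h x _ y _ (⟨h1, h2⟩ | ⟨h1, h2⟩)
    · exact h x y h1 h2
    · exact (h y x h1 h2).symm

theorem QD_SN (t m : ℕ) (h : ∀ a : Fin r → ℕ, QD K (JG (S.adj t a) Finset.univ) m) :
    QD K (S.SN t) m := by
  obtain ⟨M, hM⟩ := S.big t
  have e : S.SN t = ES fun γ => ∀ x y, S.adm x y → S.T x y t (γ x) (γ y) := rfl
  rw [e]
  refine QD_rad _ ?_ M ?_ m ?_
  · intro γ γ' hγγ h x y hxy
    exact S.up _ _ _ _ _ _ _ (h x y hxy) (hγγ x) (hγγ y)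
  · intro γ i hi h x y hxy
    by_cases hx : x = i
    · subst hx
      rw [Function.update_self]
      exact hM _ _ _ _ (Or.inl le_rfl)
    · by_cases hy : y = i
      · subst hy
        rw [Function.update_self]
        exact hM _ _ _ _ (Or.inr le_rfl)
      · rw [Function.update_of_ne hx, Function.update_of_ne hy]
        exact h x y hxy
  · intro a _
    have h1 := h a
    have : (ES fun γ => ∀ x y, S.adm x y → S.T x y t (if γ x = 0 then a x else M)
        (if γ y = 0 then a y else M)) = JG (S.adj t a) Finset.univ := by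
      ext γ
      rw [mem_JG_adj]
      constructor
      · intro h2 x y hxy h3
        by_contra hcon
        push Not at hcon
        have := h2 x y hxy
        rw [if_pos hcon.1, if_pos hcon.2] at this
        exact h3 this
      · intro h2 x y hxy
        by_cases hx : γ x = 0
        · by_cases hy : γ y = 0
          · rw [if_pos hx, if_pos hy]
            by_contra hcon
            rcases h2 x y hxy hcon with h | h
            · exact h hx
            · exact h hy
          · rw [if_neg hy]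
            exact hM _ _ _ _ (Or.inr le_rfl)
        · rw [if_neg hx]
          exact hM _ _ _ _ (Or.inl le_rfl)
    rw [this]
    exact h1

theorem QD_of_SN (t m : ℕ) (h : QD K (S.SN t) (m + 1)) (a : Fin r → ℕ) :
    QD K (JG (S.adj t a) Finset.univ) (m + 1) := by
  obtain ⟨M, hM⟩ := S.big t
  let N := M + 1 + ∑ v, a v
  refine QD_expand (SN_upper t) (JG_upper _ _) (N := N) (by omega) a ?_ ?_ h
  · intro i
    have : a i ≤ ∑ v, a v := Finset.single_le_sum (f := a) (fun _ _ => Nat.zero_le _)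
      (Finset.mem_univ i)
    omega
  · intro γ
    rw [mem_JG_adj]
    have hval : ∀ v, (fs a + N • γ : Fin r →₀ ℕ) v = a v + N * γ v := by
      intro v
      rw [Finsupp.add_apply, fs_apply, Finsupp.smul_apply, smul_eq_mul]
    have hlarge : ∀ v, γ v ≠ 0 → M ≤ (fs a + N • γ : Fin r →₀ ℕ) v := by
      intro v hv
      rw [hval]
      have : N * 1 ≤ N * γ v := Nat.mul_le_mul_left _ (by omega)
      omega
    have hsmall : ∀ v, γ v = 0 → (fs a + N • γ : Fin r →₀ ℕ) v = a v := by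
      intro v hv
      rw [hval, hv, mul_zero, add_zero]
    constructor
    · intro h2 x y hxy
      by_cases hx : γ x = 0
      · by_cases hy : γ y = 0
        · rw [hsmall x hx, hsmall y hy]
          by_contra hcon
          rcases h2 x y hxy hcon with h | h
          · exact h hx
          · exact h hy
        · exact hM _ _ _ _ (Or.inr (hlarge y hy))
      · exact hM _ _ _ _ (Or.inl (hlarge x hx))
    · intro h2 x y hxy h3
      by_contra hcon
      push Not at hcon
      have := h2 x y hxy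
      rw [hsmall x hcon.1, hsmall y hcon.2] at this
      exact h3 this

end Sys

end Pool.Agent.H408R4
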