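import Mathlib
import Pool.Agent.H408R4.Arith
import Pool.Agent.H408R4.SymSys
import Pool.Agent.H408R4.Local

/-!
The concrete system of conditions.
-/

set_option autoImplicit false

namespace Pool.Agent.H408R4

open CategoryTheory Abelian Limits MvPolynomial
open Pool.Agent.Helper698.Dstab
open Pool.Agent.Helper698.Symb
open Pool.Agent.H408R3.PDF

universe u

section sums

variable {I : Type}

/-- oriented edges -/
def adm' : I ⊕ I → I ⊕ I → Prop
  | .inl _, .inr _ => True
  | .inr i, .inr j => i ≠ j
  | _, _ => False

/-- conditions -/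
def T' (p : ℕ) (B : I → ℕ → Prop) (L : I → Prop) (c : ℕ) : I ⊕ I → I ⊕ I → ℕ → ℕ → ℕ → Prop
  | .inl i, .inr j, t, a, b =>
      (i = j → TM p (B i) t a b) ∧ (i ≠ j → TC p (L i ∨ L j) t a b)
  | .inr _, .inr _, t, a, b => TV c t a b
  | _, _, _, _, _ => True

end sums

section system

variable {I : Type} {r : ℕ} (e : I ⊕ I ≃ Fin r) {p : ℕ} {B : I → ℕ → Prop} {L : I → Prop} {c : ℕ}

/-- the system -/
def mkSys (hp : 2 ≤ p) (hB1 : ∀ i s, 1 ≤ s → B i (s + p) → B i s)
    (hB2 : ∀ i s, p < s → (B i (s + p) ↔ B i s)) (hc : 1 ≤ c) : Sys r where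
  adm := fun x y => adm' (e.symm x) (e.symm y)
  T := fun x y t a b => T' p B L c (e.symm x) (e.symm y) t a b
  ne := by
    rintro x y h rfl
    rcases h1 : e.symm x with i | i
    · rw [h1] at h; exact h
    · rw [h1] at h; exact h rfl
  up := by
    intro x y t a b a' b' h ha hb
    generalize e.symm x = X at h ⊢
    generalize e.symm y = Y at h ⊢
    rcases X with i | i <;> rcases Y with j | j
    · trivial
    · exact ⟨fun hij => TM_up (h.1 hij) ha hb, fun hij => TC_up hp (h.2 hij) ha hb⟩
    · trivial
    · exact TV_up h ha hb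
  add := by
    intro x y t a b a' b' h h'
    generalize e.symm x = X at h h' ⊢
    generalize e.symm y = Y at h h' ⊢
    rcases X with i | i <;> rcases Y with j | j
    · trivial
    · exact ⟨fun hij => TM_add (hB1 i) (h.1 hij) (h'.1 hij),
        fun hij => TC_add (h.2 hij) (h'.2 hij)⟩
    · trivial
    · exact TV_add h h'
  dec := by
    intro x y t a b ht h
    generalize e.symm x = X at h ⊢
    generalize e.symm y = Y at h ⊢
    rcases X with i | i <;> rcases Y with j | j
    · exact ⟨0, 0, Nat.zero_le _, Nat.zero_le _, trivial, trivial⟩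
    · by_cases hij : i = j
      · obtain ⟨a0, b0, h1, h2, h3, h4⟩ := TM_dec hp (hB2 i) ht (h.1 hij)
        exact ⟨a0, b0, h1, h2, ⟨fun _ => h3, fun h => absurd hij h⟩,
          ⟨fun _ => h4, fun h => absurd hij h⟩⟩
      · obtain ⟨a0, b0, h1, h2, h3, h4⟩ := TC_dec hp ht (h.2 hij)
        exact ⟨a0, b0, h1, h2, ⟨fun h => absurd h hij, fun _ => h3⟩,
          ⟨fun h => absurd h hij, fun _ => h4⟩⟩
    · exact ⟨0, 0, Nat.zero_le _, Nat.zero_le _, trivial, trivial⟩
    · exact TV_dec h
  pos := by
    intro x y t hxy ht h
    rcases h1 : e.symm x with i | i <;> rcases h2 : e.symm y with j | j <;>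
      rw [h1, h2] at h hxy
    · exact hxy
    · by_cases hij : i = j
      · have h3 := h.1 hij
        unfold TM at h3
        have : 0 < (p + 3) * p * (2 * p + 1) * t := by positivity
        omega
      · have h3 := h.2 hij
        unfold TC at h3
        have : 0 < (p + 3) * p * (2 * p + 2) * t := by positivity
        omega
    · exact hxy
    · have h3 : c * t ≤ 0 + 0 := h
      have : 0 < c * t := Nat.mul_pos hc ht
      omega
  big := by
    intro t
    refine ⟨(p + 3) * p * (2 * p + 2) * t + c * t + p + 4, ?_⟩
    intro x y a b hab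
    rcases e.symm x with i | i <;> rcases e.symm y with j | j
    · trivial
    · refine ⟨fun _ => ?_, fun _ => ?_⟩
      · unfold TM
        have h1 := kap_le (p := p) (B := B i) a
        have h2 : (p + 3) * p * (2 * p + 1) * t ≤ (p + 3) * p * (2 * p + 2) * t :=
          Nat.mul_le_mul_right _ (Nat.mul_le_mul_left _ (by omega))
        omega
      · unfold TC
        have h1 := lam_le (p := p) (L := L i ∨ L j) a
        have h2 : a ≤ (p + 1) * a := Nat.le_mul_of_pos_left _ (by omega)
        omega
    · trivial
    · show c * t ≤ a + b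
      omega
  uniq := by
    intro x y x' y' h h' hx hy
    have hne : ∀ z, ¬ adm' (e.symm z) (e.symm z) := by
      intro z hz
      rcases h1 : e.symm z with i | i
      · rw [h1] at hz; exact hz
      · rw [h1] at hz; exact hz rfl
    rcases hx with rfl | rfl <;> rcases hy with rfl | rfl
    · exact absurd h' (hne _)
    · exact Or.inl ⟨rfl, rfl⟩
    · refine Or.inr ⟨rfl, rfl, ?_⟩
      intro t a b h3
      rcases h1 : e.symm y' with i | i <;> rcases h2 : e.symm x' with j | j <;>
        rw [h1, h2] at h3 h <;> rw [h1, h2] at h'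
      · trivial
      · exact h'.elim
      · trivial
      · show c * t ≤ b + a
        have h4 : c * t ≤ a + b := h3
        omega
    · exact absurd h' (hne _)

end system

end Pool.Agent.H408R4
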