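import Mathlib
import Pool.Agent.H408R4.Concrete

/-!
Projective dimension of the symbolic powers.
-/

set_option autoImplicit false

namespace Pool.Agent.H408R4

open CategoryTheory Abelian Limits MvPolynomial
open Pool.Agent.Helper698.Dstab
open Pool.Agent.Helper698.Symb
open Pool.Agent.H408R3.PDF

universe u

/-- the critical second exponent per step -/
def om2 (p : ℕ) : ℕ := (p + 3) * (p * (2 * p + 1) - 1)

theorem om2_eq {p : ℕ} (hp : 2 ≤ p) : (p + 3) * p * (2 * p + 1) = (p + 3) + om2 p := by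
  unfold om2
  obtain ⟨w, hw⟩ : ∃ w, p * (2 * p + 1) = w + 1 := ⟨p * (2 * p + 1) - 1, by
    have : 0 < p * (2 * p + 1) := by positivity
    omega⟩
  rw [hw, mul_assoc, hw, Nat.add_sub_cancel]
  ring

theorem WM_eq {p : ℕ} (hp : 2 ≤ p) (t : ℕ) :
    (p + 3) * p * (2 * p + 1) * t = (p + 3) * t + om2 p * t := by
  rw [om2_eq hp]; ring

theorem WC_eq {p : ℕ} (hp : 2 ≤ p) (t : ℕ) :
    (p + 3) * p * (2 * p + 2) * t = (p + 1) * ((p + 3) * t) + om2 p * t := by
  have h1 := WM_eq hp t
  have h2 : (p + 3) * p * (2 * p + 2) * t =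
      (p + 3) * p * (2 * p + 1) * t + (p + 3) * p * t := by ring
  rw [h2, h1]; ring

theorem om2_pos {p : ℕ} (hp : 2 ≤ p) : 1 ≤ 2 * om2 p := by
  have h1 := om2_eq hp
  have h2 : (p + 3) * 2 ≤ (p + 3) * p * (2 * p + 1) := by
    calc (p + 3) * 2 ≤ (p + 3) * p := Nat.mul_le_mul_left _ hp
      _ ≤ (p + 3) * p * (2 * p + 1) := Nat.le_mul_of_pos_right _ (by omega)
  omega

section

variable {I : Type} {r : ℕ} (e : I ⊕ I ≃ Fin r) {p : ℕ} {B : I → ℕ → Prop} {L : I → Prop}
  (hp : 2 ≤ p) (hB1 : ∀ i s, 1 ≤ s → B i (s + p) → B i s)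
  (hB2 : ∀ i s, p < s → (B i (s + p) ↔ B i s))

/-- the system with its constant -/
def theSys : Sys r := mkSys e (L := L) hp hB1 hB2 (om2_pos hp)

open Classical in
/-- the local data -/
noncomputable def theLoc (B : I → ℕ → Prop) (L : I → Prop) (t : ℕ)
    (a : Fin r → ℕ) : Loc I where
  α := p + 1
  A0 := (p + 3) * t
  B0 := om2 p * t
  a := fun i => a (e (Sum.inl i))
  b := fun i => a (e (Sum.inr i))
  κ := fun i => kap p (B i) (a (e (Sum.inl i)))
  la := fun i j => lam p (L i ∨ L j) (a (e (Sum.inl i)))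
  Lt := L
  early := t ≤ p
  act := fun i => B i t
  c := if p ∣ t then 0 else 1
  hα := by omega
  hκ := fun i => kap_le _
  hκabove := by
    intro i hi
    obtain ⟨x, hx⟩ : ∃ x, a (e (Sum.inl i)) = (p + 3) * t + x := ⟨_, (Nat.add_sub_cancel' hi.le).symm⟩
    rw [hx, Nat.add_sub_cancel_left]
    exact kap_above t x (by omega)
  hκcrit := by
    intro i hi
    rw [hi]
    exact kap_zero t
  hκact := fun i hi h => kap_below_pos hi h
  hκina := fun i hi h => kap_below_neg hi h
  hla := fun i j => lam_le _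
  hlacrit := by
    intro i j hi
    rw [hi]
    exact lam_crit t
  hc := by split_ifs <;> omega
  hlacmp := by
    intro i k j h1 h2
    rw [h1]
    exact lam_mono (fun h => h.imp_left h2) _
  hlatwo := fun i j hi he h => lam_below_two hi he (Or.inl h)
  hlaone := by
    intro i j hi h
    apply lam_below_one hi
    rcases h with h | ⟨h, h'⟩
    · left; omega
    · right
      rintro (h3 | h3)
      · exact h h3
      · exact h' h3
  hlage := fun i j hi => lam_below_ge hi

theorem loc_E {t : ℕ} {a : Fin r → ℕ} {i j : I} :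
    (theLoc e hp B L t a).E i j ↔
    (i = j ∧ ¬ TM p (B i) t (a (e (Sum.inl i))) (a (e (Sum.inr j)))) ∨
    (i ≠ j ∧ ¬ TC p (L i ∨ L j) t (a (e (Sum.inl i))) (a (e (Sum.inr j)))) := by
  have h1 := WM_eq hp t
  have h2 := WC_eq hp t
  constructor
  · rintro (⟨rfl, h⟩ | ⟨hij, h⟩)
    · left
      refine ⟨rfl, ?_⟩
      replace h : a (e (Sum.inl i)) + a (e (Sum.inr i)) <
        (p + 3) * t + om2 p * t + kap p (B i) (a (e (Sum.inl i))) := h
      unfold TM
      omega
    · right
      refine ⟨hij, ?_⟩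
      replace h : (p + 1) * a (e (Sum.inl i)) + a (e (Sum.inr j)) <
        (p + 1) * ((p + 3) * t) + om2 p * t + lam p (L i ∨ L j) (a (e (Sum.inl i))) := h
      unfold TC
      omega
  · rintro (⟨rfl, h⟩ | ⟨hij, h⟩)
    · left
      refine ⟨rfl, ?_⟩
      show a (e (Sum.inl i)) + a (e (Sum.inr i)) <
        (p + 3) * t + om2 p * t + kap p (B i) (a (e (Sum.inl i)))
      unfold TM at h
      omega
    · right
      refine ⟨hij, ?_⟩
      show (p + 1) * a (e (Sum.inl i)) + a (e (Sum.inr j)) <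
        (p + 1) * ((p + 3) * t) + om2 p * t + lam p (L i ∨ L j) (a (e (Sum.inl i)))
      unfold TC at h
      omega

theorem adm_uv (i j : I) : (theSys e (L := L) hp hB1 hB2).adm (e (Sum.inl i)) (e (Sum.inr j)) := by
  show adm' (e.symm (e (Sum.inl i))) (e.symm (e (Sum.inr j)))
  rw [e.symm_apply_apply, e.symm_apply_apply]
  trivial

theorem adm_vv (i j : I) (hij : i ≠ j) :
    (theSys e (L := L) hp hB1 hB2).adm (e (Sum.inr i)) (e (Sum.inr j)) := by
  show adm' (e.symm (e (Sum.inr i))) (e.symm (e (Sum.inr j)))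
  rw [e.symm_apply_apply, e.symm_apply_apply]
  exact hij

theorem T_uv (i j : I) (t a b : ℕ) :
    (theSys e (L := L) hp hB1 hB2).T (e (Sum.inl i)) (e (Sum.inr j)) t a b ↔
      ((i = j → TM p (B i) t a b) ∧ (i ≠ j → TC p (L i ∨ L j) t a b)) := by
  show T' p B L _ (e.symm (e (Sum.inl i))) (e.symm (e (Sum.inr j))) t a b ↔ _
  rw [e.symm_apply_apply, e.symm_apply_apply]
  exact Iff.rfl

theorem T_vv (i j : I) (t a b : ℕ) :
    (theSys e (L := L) hp hB1 hB2).T (e (Sum.inr i)) (e (Sum.inr j)) t a b ↔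
      2 * om2 p * t ≤ a + b := by
  show T' p B L _ (e.symm (e (Sum.inr i))) (e.symm (e (Sum.inr j))) t a b ↔ _
  rw [e.symm_apply_apply, e.symm_apply_apply]
  exact Iff.rfl

theorem adm_cases {x y : Fin r} (h : (theSys e (L := L) hp hB1 hB2).adm x y) :
    (∃ i j, x = e (Sum.inl i) ∧ y = e (Sum.inr j)) ∨
    (∃ i j, i ≠ j ∧ x = e (Sum.inr i) ∧ y = e (Sum.inr j)) := by
  replace h : adm' (e.symm x) (e.symm y) := h
  rcases h1 : e.symm x with i | i <;> rcases h2 : e.symm y with j | j <;> rw [h1, h2] at h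
  · exact h.elim
  · left
    exact ⟨i, j, by rw [← h1, e.apply_symm_apply], by rw [← h2, e.apply_symm_apply]⟩
  · exact h.elim
  · right
    exact ⟨i, j, h, by rw [← h1, e.apply_symm_apply], by rw [← h2, e.apply_symm_apply]⟩

theorem not_T_uv {i j : I} {t : ℕ} {a : Fin r → ℕ} :
    ¬ (theSys e (L := L) hp hB1 hB2).T (e (Sum.inl i)) (e (Sum.inr j)) t
      (a (e (Sum.inl i))) (a (e (Sum.inr j))) ↔ (theLoc e hp B L t a).E i j := by
  rw [T_uv, loc_E]
  by_cases hij : i = j
  · simp [hij]
  · simp [hij]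

variable {K : Type u} [Field K]

theorem upper (t g : ℕ) (hg : 2 ≤ g) (C : Finset I)
    (hC : ∀ j, B j t → (t ≤ p → ¬ L j) → j ∈ C) (hCg : C.card ≤ g) :
    QD K ((theSys e (L := L) hp hB1 hB2).SN t) (g + 2) := by
  classical
  apply Sys.QD_SN
  intro a
  refine Loc.bound (D := theLoc e hp B L t a) (uu := fun i => e (Sum.inl i))
    (vv := fun i => e (Sum.inr i)) (Sys.adj_symm t a) (Sys.adj_irrefl t a) ?_ ?_ ?_ g hg C hC hCg
    _ _ rfl
  · intro i j h
    left
    exact ⟨adm_uv e hp hB1 hB2 i j, (not_T_uv e hp hB1 hB2).2 h⟩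
  · intro i j hij h
    left
    refine ⟨adm_vv e hp hB1 hB2 i j hij, ?_⟩
    rw [T_vv]
    replace h : a (e (Sum.inr i)) + a (e (Sum.inr j)) < 2 * (om2 p * t) := h
    rw [mul_assoc]
    omega
  · have key : ∀ x y, (theSys e (L := L) hp hB1 hB2).adm x y →
        ¬ (theSys e (L := L) hp hB1 hB2).T x y t (a x) (a y) →
        (∃ i j, x = e (Sum.inl i) ∧ y = e (Sum.inr j) ∧ (theLoc e hp B L t a).E i j) ∨
        (∃ i j, i ≠ j ∧ x = e (Sum.inr i) ∧ y = e (Sum.inr j) ∧
          a (e (Sum.inr i)) + a (e (Sum.inr j)) < 2 * (om2 p * t)) := by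
      intro x y h1 h2
      rcases adm_cases e hp hB1 hB2 h1 with ⟨i, j, rfl, rfl⟩ | ⟨i, j, hij, rfl, rfl⟩
      · left
        exact ⟨i, j, rfl, rfl, (not_T_uv e hp hB1 hB2).1 h2⟩
      · right
        refine ⟨i, j, hij, rfl, rfl, ?_⟩
        rw [T_vv, mul_assoc] at h2
        omega
    rintro x y (⟨h1, h2⟩ | ⟨h1, h2⟩)
    · rcases key x y h1 h2 with ⟨i, j, h3, h4, h5⟩ | ⟨i, j, hij, h3, h4, h5⟩
      · exact Or.inl ⟨i, j, h3, h4, h5⟩
      · exact Or.inr (Or.inr ⟨i, j, hij, h3, h4, h5⟩)
    · rcases key y x h1 h2 with ⟨i, j, h3, h4, h5⟩ | ⟨i, j, hij, h3, h4, h5⟩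
      · exact Or.inr (Or.inl ⟨i, j, h4, h3, h5⟩)
      · refine Or.inr (Or.inr ⟨j, i, hij.symm, h4, h3, ?_⟩)
        show a (e (Sum.inr j)) + a (e (Sum.inr i)) < 2 * (om2 p * t)
        omega

theorem lower (t : ℕ) (ht : 1 ≤ t) (C : Finset I) (hCne : C.Nonempty)
    (hC : ∀ j ∈ C, B j t ∧ (t ≤ p → ¬ L j)) :
    ¬ QD K ((theSys e (L := L) hp hB1 hB2).SN t) (C.card + 1) := by
  classical
  intro h
  obtain ⟨M, hM⟩ := (theSys e (L := L) hp hB1 hB2).big t
  let a : Fin r → ℕ := fun v => match e.symm v with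
    | Sum.inl i => if i ∈ C then (p + 3) * t - 1 else M
    | Sum.inr i => if i ∈ C then om2 p * t + (p + 2) else M
  have hau : ∀ i ∈ C, a (e (Sum.inl i)) + 1 = (p + 3) * t := by
    intro i hi
    have h1 : a (e (Sum.inl i)) = (p + 3) * t - 1 := by
      simp only [a, Equiv.symm_apply_apply, if_pos hi]
    have h2 : 0 < (p + 3) * t := by positivity
    omega
  have hau' : ∀ i, i ∉ C → a (e (Sum.inl i)) = M := by
    intro i hi
    simp only [a, Equiv.symm_apply_apply, if_neg hi]
  have hav : ∀ i ∈ C, a (e (Sum.inr i)) = om2 p * t + (p + 2) := by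
    intro i hi
    simp only [a, Equiv.symm_apply_apply, if_pos hi]
  have hav' : ∀ i, i ∉ C → a (e (Sum.inr i)) = M := by
    intro i hi
    simp only [a, Equiv.symm_apply_apply, if_neg hi]
  have h1 := WM_eq hp t
  have h2 := WC_eq hp t
  have h3 := Sys.QD_of_SN t C.card h a
  have h4 : JG ((theSys e (L := L) hp hB1 hB2).adj t a) Finset.univ =
      MJ (fun i => e (Sum.inl i)) (fun i => e (Sum.inr i)) C ∅ := by
    ext γ
    rw [Sys.mem_JG_adj]
    constructor
    · intro h5
      left
      intro j hj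
      apply h5 _ _ (adm_uv e hp hB1 hB2 j j)
      rw [not_T_uv, loc_E]
      left
      refine ⟨rfl, ?_⟩
      have h6 := hau j hj
      have h7 := hav j hj
      have h8 := kap_below_pos (B := B j) h6 (hC j hj).1
      unfold TM
      omega
    · rintro (h5 | ⟨w, hw, _⟩)
      · intro x y h6 h7
        rcases adm_cases e hp hB1 hB2 h6 with ⟨i, j, rfl, rfl⟩ | ⟨i, j, hij, rfl, rfl⟩
        · by_cases hi : i ∈ C
          · by_cases hj : j ∈ C
            · rw [not_T_uv, loc_E] at h7
              rcases h7 with ⟨rfl, h7⟩ | ⟨hij, h7⟩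
              · exact h5 i hi
              · exfalso
                apply h7
                have h8 := hau i hi
                have h9 := hav j hj
                have h10 : lam p (L i ∨ L j) (a (e (Sum.inl i))) = 1 := by
                  apply lam_below_one h8
                  by_cases htp : p < t
                  · exact Or.inl htp
                  · right
                    rintro (h11 | h11)
                    · exact (hC i hi).2 (by omega) h11
                    · exact (hC j hj).2 (by omega) h11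
                unfold TC
                rw [h10, h9, h2]
                have h12 : (p + 1) * ((p + 3) * t) = (p + 1) * a (e (Sum.inl i)) + (p + 1) := by
                  rw [← h8]; ring
                omega
            · exact absurd (hM _ _ _ _ (Or.inr (hav' j hj).symm.le)) h7
          · exact absurd (hM _ _ _ _ (Or.inl (hau' i hi).symm.le)) h7
        · exfalso
          by_cases hi : i ∈ C
          · by_cases hj : j ∈ C
            · rw [T_vv, mul_assoc] at h7
              have h8 := hav i hi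
              have h9 := hav j hj
              omega
            · exact absurd (hM _ _ _ _ (Or.inr (hav' j hj).symm.le)) h7
          · exact absurd (hM _ _ _ _ (Or.inl (hav' i hi).symm.le)) h7
      · simp at hw
  rw [h4] at h3
  refine MJ_lb (K := K) (fun i => e (Sum.inl i)) (fun i => e (Sum.inr i)) ?_ ?_ ?_ C hCne ∅ ?_ ?_
  · intro i j hij
    have := e.injective hij
    simp at this
  · intro i j hij
    have := e.injective hij
    simpa using this
  · intro i j hij
    have := e.injective hij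
    simpa using this
  · intro j _
    simp
  · simpa using h3

end

end Pool.Agent.H408R4
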